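import Pool.Agent.J4H96.TC.Cut

/-!
# Any two-colouring reveals the links
-/

set_option autoImplicit false

namespace Pool.Agent.J4H96.TC

open Pool.Agent.J4H63.GZ Relation

section

variable {K : ℕ}

/-- half of the bound for the vertices -/
def mm (v : Fin (K + 3) → ℕ) : ℕ := v 0 + v 1 + v 2 + 1

/-- the parameters of the cut -/
def cv (v : Fin (K + 3) → ℕ) : Fin (K + 4) → ℕ :=
  Matrix.vecCons (v 2) (Matrix.vecCons (v 0) (Matrix.vecCons (v 1) (fun i => v i.succ.succ)))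

/-- the parameters of the graph in which the edge `f` is not subdivided -/
def qv (v : Fin (K + 3) → ℕ) (f : ℕ) : Fin (K + 7) → ℕ :=
  Matrix.vecCons (6 * mm v) (Matrix.vecCons (mm v) (Matrix.vecCons f (cv v)))

/-- the colours of `u` and `w` are different -/
def Sd (C : (Fin (K + 7) → ℕ) → ℕ → Prop) (v : Fin (K + 3) → ℕ) (u w f : ℕ) : Prop :=
  ¬ (C (qv v f) (3 * u) ↔ C (qv v f) (3 * w))

def SidS (C : (Fin (K + 7) → ℕ) → ℕ → Prop) (v : Fin (K + 3) → ℕ) (u w c : ℕ) : Prop :=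
  ∃ j ≤ c, (c = 2 * j ∨ c = 2 * j + 1) ∧ Sd C v u w (6 * j + 1)

def TidS (C : (Fin (K + 7) → ℕ) → ℕ → Prop) (τ : (Fin (K + 1) → ℕ) → ℕ → ℕ)
    (v : Fin (K + 3) → ℕ) (u w c : ℕ) : Prop :=
  ∃ c' ≤ 2 * mm v, cutFam τ (cv v) c = c' ∧ ¬ c' = c ∧ ∃ m ≤ c, m = min c c' ∧
    Sd C v u w (3 * m + 2)

def Frm (C : (Fin (K + 7) → ℕ) → ℕ → Prop) (τ : (Fin (K + 1) → ℕ) → ℕ → ℕ)
    (v : Fin (K + 3) → ℕ) : Prop :=
  v 1 = v 0 ∨ τ (fun i => v i.succ.succ) (v 0) = v 1 ∨ ∃ u ≤ 2 * mm v, ∃ w ≤ 2 * mm v,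
    (u = v 0 ∨ τ (fun i => v i.succ.succ) (v 0) = u) ∧
    (w = v 1 ∨ τ (fun i => v i.succ.succ) (v 1) = w) ∧ ¬ u = w ∧ SidS C v u w u ∧
    ∀ c < 2 * mm v, ¬ c = u → ¬ c = w → (SidS C v u w c ↔ TidS C τ v u w c)

variable {C : (Fin (K + 7) → ℕ) → ℕ → Prop} {τ : (Fin (K + 1) → ℕ) → ℕ → ℕ} {ι : Type}
  {V : Fin (K + 3) → (ι → ℕ) → ℕ} {u w f c : (ι → ℕ) → ℕ}

theorem pf_mm (hV : ∀ i, PF (V i)) : PF (fun s : ι → ℕ => mm (fun i => V i s)) :=
  (((hV 0).add (hV 1)).add (hV 2)).add (PF.const 1)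

theorem pf_cv (hV : ∀ i, PF (V i)) : ∀ i, PF (fun s : ι → ℕ => cv (fun i => V i s) i) :=
  PF.cons (hV 2) (PF.cons (hV 0) (PF.cons (hV 1) fun i : Fin (K + 1) => hV i.succ.succ))

theorem pf_qv (hV : ∀ i, PF (V i)) (hf : PF f) :
    ∀ i, PF (fun s : ι → ℕ => qv (fun i => V i s) (f s) i) :=
  PF.cons ((PF.const 6).mul (pf_mm hV)) (PF.cons (pf_mm hV) (PF.cons hf (pf_cv hV)))

theorem bd_C (hC : Delta0 (K + 6 + 2) (fun v => C (fun i => v i.succ) (v 0)))
    (hV : ∀ i, PF (V i)) (hf : PF f) (hc : PF c) :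
    Bd (fun s : ι → ℕ => C (qv (fun i => V i s) (f s)) (c s)) := by
  refine ((Bd.of_delta0 hC).subst (f := fun i s => (Matrix.vecCons (c s)
    (fun j => qv (fun i => V i s) (f s) j) : Fin (K + 6 + 2) → ℕ) i)
    (PF.cons hc (pf_qv hV hf))).congr fun v => ?_
  exact Iff.rfl

theorem bd_Sd (hC : Delta0 (K + 6 + 2) (fun v => C (fun i => v i.succ) (v 0)))
    (hV : ∀ i, PF (V i)) (hu : PF u) (hw : PF w) (hf : PF f) :
    Bd (fun s : ι → ℕ => Sd C (fun i => V i s) (u s) (w s) (f s)) :=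
  Bd.not (Bd.iff (bd_C hC hV hf ((PF.const 3).mul hu)) (bd_C hC hV hf ((PF.const 3).mul hw)))

theorem up {g : (ι → ℕ) → ℕ} (hg : PF g) : PF (fun s : Option ι → ℕ => g (fun i => s (some i))) :=
  hg.comp fun i => PF.proj (some i)

theorem bd_SidS (hC : Delta0 (K + 6 + 2) (fun v => C (fun i => v i.succ) (v 0)))
    (hV : ∀ i, PF (V i)) (hu : PF u) (hw : PF w) (hc : PF c) :
    Bd (fun s : ι → ℕ => SidS C (fun i => V i s) (u s) (w s) (c s)) := by
  refine Bd.ex_le (b := c) (P := fun s j => (c s = 2 * j ∨ c s = 2 * j + 1) ∧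
    Sd C (fun i => V i s) (u s) (w s) (6 * j + 1)) hc ?_
  exact Bd.and (Bd.or (Bd.eqf (up hc) ((PF.const 2).mul (PF.proj none)))
    (Bd.eqf (up hc) (((PF.const 2).mul (PF.proj none)).add (PF.const 1))))
    (bd_Sd hC (fun i => up (hV i)) (up hu) (up hw) (((PF.const 6).mul (PF.proj none)).add
      (PF.const 1)))

theorem bd_TidS (hτ : InvFamily K τ)
    (hC : Delta0 (K + 6 + 2) (fun v => C (fun i => v i.succ) (v 0)))
    (hV : ∀ i, PF (V i)) (hu : PF u) (hw : PF w) (hc : PF c) :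
    Bd (fun s : ι → ℕ => TidS C τ (fun i => V i s) (u s) (w s) (c s)) := by
  refine Bd.ex_le (b := fun s => 2 * mm (fun i => V i s)) (P := fun s c' =>
    cutFam τ (cv (fun i => V i s)) (c s) = c' ∧ ¬ c' = c s ∧ ∃ m ≤ c s, m = min (c s) c' ∧
    Sd C (fun i => V i s) (u s) (w s) (3 * m + 2)) ((PF.const 2).mul (pf_mm hV)) ?_
  refine Bd.and ?_ (Bd.and (Bd.not (Bd.eqf (PF.proj none) (up hc))) ?_)
  · exact InvBd (cut_fam hτ) (up hc) (PF.proj none) (p := fun i (s : Option ι → ℕ) =>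
      cv (fun i => V i (fun j => s (some j))) i) (pf_cv fun i => up (hV i))
  · refine Bd.ex_le (b := fun s : Option ι → ℕ => c (fun i => s (some i))) (P := fun s m =>
      m = min (c (fun i => s (some i))) (s none) ∧ Sd C (fun i => V i (fun i => s (some i)))
        (u (fun i => s (some i))) (w (fun i => s (some i))) (3 * m + 2)) (up hc) ?_
    exact Bd.and (Bd.eq_min (PF.proj none) (up (up hc)) (PF.proj (some none)))
      (bd_Sd hC (fun i => up (up (hV i))) (up (up hu)) (up (up hw))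
        (((PF.const 3).mul (PF.proj none)).add (PF.const 2)))

theorem bd_Frm (hτ : InvFamily K τ)
    (hC : Delta0 (K + 6 + 2) (fun v => C (fun i => v i.succ) (v 0))) :
    Bd (fun v : Fin (K + 3) → ℕ => Frm C τ v) := by
  have h0 : ∀ i, PF (fun v : Fin (K + 3) → ℕ => v i) := fun i => PF.proj i
  have hm : PF (fun v : Fin (K + 3) → ℕ => 2 * mm (fun i => v i)) := (PF.const 2).mul (pf_mm h0)
  refine Bd.or (Bd.eqf (h0 1) (h0 0)) (Bd.or (InvBd hτ (h0 0) (h0 1) (p := fun i v =>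
    v i.succ.succ) fun i => h0 _) ?_)
  refine Bd.ex_le (b := fun v => 2 * mm v) (P := fun v u => ∃ w ≤ 2 * mm v,
    (u = v 0 ∨ τ (fun i => v i.succ.succ) (v 0) = u) ∧
    (w = v 1 ∨ τ (fun i => v i.succ.succ) (v 1) = w) ∧ ¬ u = w ∧ SidS C v u w u ∧
    ∀ c < 2 * mm v, ¬ c = u → ¬ c = w → (SidS C v u w c ↔ TidS C τ v u w c)) hm ?_
  have h1 : ∀ i, PF (fun v : Option (Fin (K + 3)) → ℕ => v (some i)) := fun i => PF.proj _
  refine Bd.ex_le (b := fun s : Option (Fin (K + 3)) → ℕ => 2 * mm (fun i => s (some i)))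
    (P := fun s w => (s none = s (some 0) ∨ τ (fun i => s (some i.succ.succ)) (s (some 0)) = s none) ∧
    (w = s (some 1) ∨ τ (fun i => s (some i.succ.succ)) (s (some 1)) = w) ∧ ¬ s none = w ∧
    SidS C (fun i => s (some i)) (s none) w (s none) ∧
    ∀ c < 2 * mm (fun i => s (some i)), ¬ c = s none → ¬ c = w →
      (SidS C (fun i => s (some i)) (s none) w c ↔ TidS C τ (fun i => s (some i)) (s none) w c))
    ((PF.const 2).mul (pf_mm h1)) ?_
  have h2 : ∀ i, PF (fun v : Option (Option (Fin (K + 3))) → ℕ => v (some (some i))) :=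
    fun i => PF.proj _
  have hu : PF (fun v : Option (Option (Fin (K + 3))) → ℕ => v (some none)) := PF.proj _
  have hw : PF (fun v : Option (Option (Fin (K + 3))) → ℕ => v none) := PF.proj _
  refine Bd.and (Bd.or (Bd.eqf hu (h2 0)) (InvBd hτ (h2 0) hu (p := fun i
    (s : Option (Option (Fin (K + 3))) → ℕ) => s (some (some i.succ.succ))) fun i => h2 _))
    (Bd.and (Bd.or (Bd.eqf hw (h2 1)) (InvBd hτ (h2 1) hw (p := fun i
    (s : Option (Option (Fin (K + 3))) → ℕ) => s (some (some i.succ.succ))) fun i => h2 _))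
    (Bd.and (Bd.not (Bd.eqf hu hw)) (Bd.and (bd_SidS hC h2 hu hw hu) ?_)))
  refine Bd.all_lt (b := fun s : Option (Option (Fin (K + 3))) → ℕ =>
      2 * mm (fun i => s (some (some i))))
    (P := fun s c => ¬ c = s (some none) → ¬ c = s none →
      (SidS C (fun i => s (some (some i))) (s (some none)) (s none) c ↔
        TidS C τ (fun i => s (some (some i))) (s (some none)) (s none) c))
    ((PF.const 2).mul (pf_mm h2)) ?_
  have h3 : ∀ i, PF (fun v : Option (Option (Option (Fin (K + 3)))) → ℕ =>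
    v (some (some (some i)))) := fun i => PF.proj _
  have hu' : PF (fun v : Option (Option (Option (Fin (K + 3)))) → ℕ => v (some (some none))) :=
    PF.proj _
  have hw' : PF (fun v : Option (Option (Option (Fin (K + 3)))) → ℕ => v (some none)) :=
    PF.proj _
  have hc' : PF (fun v : Option (Option (Option (Fin (K + 3)))) → ℕ => v none) := PF.proj _
  exact Bd.imp (Bd.not (Bd.eqf hc' hu')) (Bd.imp (Bd.not (Bd.eqf hc' hw'))
    (Bd.iff (bd_SidS hC h3 hu' hw' hc') (bd_TidS hτ hC h3 hu' hw' hc')))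

end

theorem cutFam_cv {K : ℕ} {τ : (Fin (K + 1) → ℕ) → ℕ → ℕ} (v : Fin (K + 3) → ℕ) :
    cutFam τ (cv v) = cutT (v 0) (v 1) (τ (fun i => v i.succ.succ)) := by
  unfold cutFam
  rw [if_pos (by exact le_rfl)]
  rfl

theorem t_CORE (hFAM : S_FAM) (hPTH : S_PTH) : S_CORE := by
  intro H4 K τ hτ hE
  have hcf := cut_fam hτ
  have hG := hFAM (K + 3) (cutFam τ) hcf
  obtain ⟨C, hC, hC'⟩ := H4 (K + 3 + 3) _ hG (by
    intro q
    by_cases h : q 3 ≤ 2 * q 1 ∧ 6 * q 1 ≤ q 0
    · have e : (fun a b => q 3 ≤ 2 * q 1 ∧ 6 * q 1 ≤ q 0 ∧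
          Adj (cutFam τ (fun i => q i.succ.succ.succ)) (2 * q 1) (q 2) a b) =
          Adj (cutFam τ (fun i => q i.succ.succ.succ)) (2 * q 1) (q 2) := by
        funext a b
        exact propext ⟨fun h' => h'.2.2, fun h' => ⟨h.1, h.2, h'⟩⟩
      rw [e]
      exact hPTH _ _ _ (hcf.inv _) (fun x hx => hcf.lt _ h.1 hx) (Dvd.intro _ rfl)
        (cutFam_ends hE _)
    · intro a
      exact ⟨a, ReflTransGen.refl, fun c d hc _ => absurd ⟨hc.1, hc.2.1⟩ h⟩)
  rw [Bd.delta0_iff]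
  refine (bd_Frm (C := C) hτ hC).congr fun v => ?_
  set p : Fin (K + 1) → ℕ := fun i => v i.succ.succ with hp
  set T := cutT (v 0) (v 1) (τ p) with hTdef
  have hT : ∀ a, T (T a) = a := cutT_inv (hτ.inv p)
  have hp0 : p 0 ≤ 2 * mm v := by
    change v 2 ≤ 2 * (v 0 + v 1 + v 2 + 1)
    omega
  have hτB : ∀ a < 2 * mm v, τ p a < 2 * mm v := fun a ha => hτ.lt p hp0 ha
  have hTB : ∀ a < 2 * mm v, T a < 2 * mm v := by
    intro a ha
    by_cases h : a = v 0 ∨ a = τ p (v 0) ∨ a = v 1 ∨ a = τ p (v 1)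
    · rw [hTdef, cutT_pos h]; exact ha
    · rw [hTdef, cutT_neg h]; exact hτB a ha
  have h2B : 2 ∣ 2 * mm v := Dvd.intro _ rfl
  have hx : v 0 < 2 * mm v := by unfold mm; omega
  have hy : v 1 < 2 * mm v := by unfold mm; omega
  have hcut : cutFam τ (cv v) = T := cutFam_cv v
  have hprop : ∀ f, Proper (Adj T (2 * mm v) f) (C (qv v f)) := by
    intro f a b hab
    refine hC' (qv v f) a b ⟨?_, le_rfl, ?_⟩
    · exact hp0
    · have e : cutFam τ (fun i => qv v f i.succ.succ.succ) = T := hcut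
      change Adj (cutFam τ (fun i => qv v f i.succ.succ.succ)) (2 * mm v) f a b
      rw [e]
      exact hab
  have hSid : ∀ u w c, SidS C v u w c ↔ ¬ (C (qv v (sid c)) (3 * u) ↔ C (qv v (sid c)) (3 * w)) := by
    intro u w c
    constructor
    · rintro ⟨j, _, hj, h⟩
      have e : sid c = 6 * j + 1 := by unfold sid; omega
      rw [e]
      exact h
    · intro h
      refine ⟨c / 2, by omega, by omega, ?_⟩
      have e : sid c = 6 * (c / 2) + 1 := by unfold sid; omega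
      rw [e] at h
      exact h
  have hTid : ∀ u w c, c < 2 * mm v → (TidS C τ v u w c ↔ (T c ≠ c ∧
      ¬ (C (qv v (tid T c)) (3 * u) ↔ C (qv v (tid T c)) (3 * w)))) := by
    intro u w c hc
    unfold TidS
    rw [hcut]
    constructor
    · rintro ⟨c', _, h1, h2, m, _, hm, h⟩
      subst h1
      refine ⟨h2, ?_⟩
      have e : tid T c = 3 * m + 2 := by unfold tid; rw [hm]
      rw [e]
      exact h
    · rintro ⟨h1, h2⟩
      exact ⟨T c, (hTB c hc).le, rfl, h1, min c (T c), min_le_left _ _, rfl, h2⟩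
  have hfix : ∀ a, (a = v 0 ∨ a = τ p (v 0) ∨ a = v 1 ∨ a = τ p (v 1)) → T a = a :=
    fun a ha => cutT_pos ha
  have hmain := link_iff_cut (x := v 0) (y := v 1) (hτ.inv p)
  change Linked (τ p) (v 0) (v 1) ↔ Frm C τ v
  rw [hmain]
  constructor
  · rintro (h | h | ⟨u, w, hu, hw, huw, h⟩)
    · exact Or.inl h
    · exact Or.inr (Or.inl h.symm)
    · have huB : u < 2 * mm v := by
        rcases hu with hu | hu
        · rw [hu]; exact hx
        · rw [hu]; exact hτB _ hx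
      have hwB : w < 2 * mm v := by
        rcases hw with hw | hw
        · rw [hw]; exact hy
        · rw [hw]; exact hτB _ hy
      have hTu : T u = u := hfix u (by tauto)
      obtain ⟨h1, h2⟩ := linked_check hT hTB h2B huB hwB huw hTu (fun f => C (qv v f)) hprop
        ((linked_iff_rt hT).1 h)
      refine Or.inr (Or.inr ⟨u, huB.le, w, hwB.le, ?_, ?_, huw, (hSid u w u).2 h1, ?_⟩)
      · rcases hu with hu | hu
        · exact Or.inl hu
        · exact Or.inr hu.symm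
      · rcases hw with hw | hw
        · exact Or.inl hw
        · exact Or.inr hw.symm
      · intro c hc hcu hcw
        rw [hSid, hTid u w c hc]
        exact h2 c hc hcu hcw
  · rintro (h | h | ⟨u, _, w, _, hu, hw, huw, h1, h2⟩)
    · exact Or.inl h
    · exact Or.inr (Or.inl h.symm)
    · refine Or.inr (Or.inr ⟨u, w, ?_, ?_, huw, ?_⟩)
      · rcases hu with hu | hu
        · exact Or.inl hu
        · exact Or.inr hu.symm
      · rcases hw with hw | hw
        · exact Or.inl hw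
        · exact Or.inr hw.symm
      · have huB : u < 2 * mm v := by
          rcases hu with hu | hu
          · rw [hu]; exact hx
          · rw [← hu]; exact hτB _ hx
        have hTu : T u = u := by
          refine hfix u ?_
          rcases hu with hu | hu
          · exact Or.inl hu
          · exact Or.inr (Or.inl hu.symm)
        refine (linked_iff_rt hT).2 (check_linked hT hTB h2B huB hTu
          (fun f => ¬ (C (qv v f) (3 * u) ↔ C (qv v f) (3 * w))) ((hSid u w u).1 h1) ?_)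
        intro c hc hcu hcw
        rw [← hSid, ← hTid u w c hc]
        exact h2 c hc hcu hcw

end Pool.Agent.J4H96.TC
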