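import Pool.Agent.J4H96.TC.Sem

/-!
# Cutting an involution at two points
-/

set_option autoImplicit false

namespace Pool.Agent.J4H96.TC

open Pool.Agent.J4H63.GZ Relation

open Classical in
/-- `x`, `T x`, `y`, `T y` become fixed points -/
noncomputable def cutT (x y : ℕ) (T : ℕ → ℕ) (a : ℕ) : ℕ :=
  if a = x ∨ a = T x ∨ a = y ∨ a = T y then a else T a

section

variable {T : ℕ → ℕ} {x y : ℕ}

theorem cutT_pos {a : ℕ} (h : a = x ∨ a = T x ∨ a = y ∨ a = T y) : cutT x y T a = a := if_pos h

theorem cutT_neg {a : ℕ} (h : ¬ (a = x ∨ a = T x ∨ a = y ∨ a = T y)) : cutT x y T a = T a :=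
  if_neg h

theorem cutT_inv (hT : ∀ a, T (T a) = a) (a : ℕ) : cutT x y T (cutT x y T a) = a := by
  by_cases h : a = x ∨ a = T x ∨ a = y ∨ a = T y
  · rw [cutT_pos h, cutT_pos h]
  · rw [cutT_neg h]
    have h' : ¬ (T a = x ∨ T a = T x ∨ T a = y ∨ T a = T y) := by
      rintro (h1 | h1 | h1 | h1)
      · exact h (Or.inr (Or.inl (by rw [← h1, hT])))
      · exact h (Or.inl (by have := congrArg T h1; rwa [hT, hT] at this))
      · exact h (Or.inr (Or.inr (Or.inr (by rw [← h1, hT]))))
      · exact h (Or.inr (Or.inr (Or.inl (by have := congrArg T h1; rwa [hT, hT] at this))))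
    rw [cutT_neg h', hT]

theorem cutT_fix {a : ℕ} (h : T a = a) : cutT x y T a = a := by
  by_cases h' : a = x ∨ a = T x ∨ a = y ∨ a = T y
  · exact cutT_pos h'
  · rw [cutT_neg h', h]

theorem cutT_linked {c d : ℕ} (h : Linked (cutT x y T) c d) : Linked T c d := by
  induction h with
  | refl => exact ReflTransGen.refl
  | @tail b d _ hbd ih =>
    by_cases h' : b = x ∨ b = T x ∨ b = y ∨ b = T y
    · rcases hbd with h1 | h1
      · rw [h1, cutT_pos h']
        exact ih
      · exact ih.tail (Or.inr h1)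
    · rcases hbd with h1 | h1
      · rw [cutT_neg h'] at h1
        exact ih.tail (Or.inl h1)
      · exact ih.tail (Or.inr h1)

theorem linked_cut {c d : ℕ} (h : Linked T c d) : Linked (cutT x y T) c d ∨
    ∃ z, (z = x ∨ z = T x ∨ z = y ∨ z = T y) ∧ Linked (cutT x y T) c z := by
  induction h with
  | refl => exact Or.inl ReflTransGen.refl
  | @tail b d _ hbd ih =>
    rcases ih with ih | ih
    · by_cases h' : b = x ∨ b = T x ∨ b = y ∨ b = T y
      · exact Or.inr ⟨b, h', ih⟩
      · left
        refine ReflTransGen.tail ih ?_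
        rcases hbd with h1 | h1
        · exact Or.inl (by rw [cutT_neg h', h1])
        · exact Or.inr h1
    · exact Or.inr ih

theorem hasEnds_cut (h : HasEnds T) : HasEnds (cutT x y T) := by
  intro c
  obtain ⟨d, hd, hTd⟩ := h c
  rcases linked_cut (x := x) (y := y) hd with h1 | ⟨z, hz, h1⟩
  · exact ⟨d, h1, cutT_fix hTd⟩
  · exact ⟨z, h1, cutT_pos hz⟩

/-- the cut decides links -/
theorem link_iff_cut (hT : ∀ a, T (T a) = a) : Linked T x y ↔ y = x ∨ y = T x ∨
    ∃ u v, (u = x ∨ u = T x) ∧ (v = y ∨ v = T y) ∧ u ≠ v ∧ Linked (cutT x y T) u v := by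
  classical
  constructor
  · intro h
    by_contra hcon
    push Not at hcon
    obtain ⟨h1, h2, h3⟩ := hcon
    have key : ∀ c, Linked T x c → ∃ u, (u = x ∨ u = T x) ∧ Linked (cutT x y T) u c := by
      intro c hc
      induction hc with
      | refl => exact ⟨x, Or.inl rfl, ReflTransGen.refl⟩
      | @tail b d _ hbd ih =>
        obtain ⟨u, hu, hub⟩ := ih
        rcases hbd with hbd | hbd
        · by_cases h' : b = x ∨ b = T x ∨ b = y ∨ b = T y
          · rcases h' with h4 | h4 | h4 | h4
            · exact ⟨T x, Or.inr rfl, by rw [hbd, h4]; exact ReflTransGen.refl⟩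
            · exact ⟨x, Or.inl rfl, by rw [hbd, h4, hT]; exact ReflTransGen.refl⟩
            · have hub' : Linked (cutT x y T) u y := h4 ▸ hub
              exfalso
              refine h3 u y hu (Or.inl rfl) ?_ hub'
              rcases hu with hu | hu
              · rw [hu]; exact fun h => h1 h.symm
              · rw [hu]; exact fun h => h2 h.symm
            · have hub' : Linked (cutT x y T) u (T y) := h4 ▸ hub
              exfalso
              refine h3 u (T y) hu (Or.inr rfl) ?_ hub'
              rcases hu with hu | hu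
              · rw [hu]
                intro h
                exact h2 (by rw [h, hT])
              · rw [hu]
                intro h
                have := congrArg T h
                rw [hT, hT] at this
                exact h1 this.symm
          · exact ⟨u, hu, ReflTransGen.tail hub (Or.inl (by rw [cutT_neg h', hbd]))⟩
        · exact ⟨u, hu, ReflTransGen.tail hub (Or.inr hbd)⟩
    obtain ⟨u, hu, huy⟩ := key y h
    refine h3 u y hu (Or.inl rfl) ?_ huy
    rcases hu with hu | hu
    · rw [hu]; exact fun h => h1 h.symm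
    · rw [hu]; exact fun h => h2 h.symm
  · rintro (h | h | ⟨u, v, hu, hv, _, h⟩)
    · rw [h]; exact ReflTransGen.refl
    · rw [h]; exact linked_tau T x
    · have h1 : Linked T x u := by
        rcases hu with hu | hu
        · rw [hu]; exact ReflTransGen.refl
        · rw [hu]; exact linked_tau T x
      have h2 : Linked T v y := by
        rcases hv with hv | hv
        · rw [hv]; exact ReflTransGen.refl
        · rw [hv]
          have := linked_tau T (T y)
          rwa [hT] at this
      exact (h1.trans (cutT_linked h)).trans h2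

end

/-! ### The family -/

/-- the parameters are `L, x, y, p`, with `L ≥ p 0` -/
noncomputable def cutFam {K : ℕ} (τ : (Fin (K + 1) → ℕ) → ℕ → ℕ) (q : Fin (K + 4) → ℕ) : ℕ → ℕ :=
  if q 3 ≤ q 0 then cutT (q 1) (q 2) (τ (fun i => q i.succ.succ.succ)) else fun a => a

theorem cutT_graph {T : ℕ → ℕ} {x y a b : ℕ} (hT : ∀ a, T (T a) = a) : cutT x y T a = b ↔
    ((a = x ∨ T x = a ∨ a = y ∨ T y = a) ∧ a = b) ∨
      (¬ (a = x ∨ T x = a ∨ a = y ∨ T y = a) ∧ T a = b) := by
  by_cases h : a = x ∨ a = T x ∨ a = y ∨ a = T y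
  · rw [cutT_pos h]
    have h' : a = x ∨ T x = a ∨ a = y ∨ T y = a := by
      rcases h with h | h | h | h
      · exact Or.inl h
      · exact Or.inr (Or.inl h.symm)
      · exact Or.inr (Or.inr (Or.inl h))
      · exact Or.inr (Or.inr (Or.inr h.symm))
    tauto
  · rw [cutT_neg h]
    have h' : ¬ (a = x ∨ T x = a ∨ a = y ∨ T y = a) := by
      rintro (h1 | h1 | h1 | h1)
      · exact h (Or.inl h1)
      · exact h (Or.inr (Or.inl h1.symm))
      · exact h (Or.inr (Or.inr (Or.inl h1)))
      · exact h (Or.inr (Or.inr (Or.inr h1.symm)))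
    tauto

/-- the graph of a family, with polynomial arguments -/
theorem InvBd {K : ℕ} {τ : (Fin (K + 1) → ℕ) → ℕ → ℕ} (hτ : InvFamily K τ) {ι : Type}
    {a b : (ι → ℕ) → ℕ} {p : Fin (K + 1) → (ι → ℕ) → ℕ} (ha : PF a) (hb : PF b)
    (hp : ∀ i, PF (p i)) : Bd (fun v : ι → ℕ => τ (fun i => p i v) (a v) = b v) := by
  refine ((Bd.of_delta0 hτ.graph).subst (f := fun i v => (Matrix.vecCons (a v)
    (Matrix.vecCons (b v) (fun j => p j v)) : Fin (K + 3) → ℕ) i) (PF.cons ha (PF.cons hb hp))).congr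
    fun v => ?_
  exact Iff.rfl

theorem cut_fam {K : ℕ} {τ : (Fin (K + 1) → ℕ) → ℕ → ℕ} (hτ : InvFamily K τ) :
    InvFamily (K + 3) (cutFam τ) := by
  refine ⟨fun q a => ?_, fun q a ha => ?_, ?_⟩
  · unfold cutFam
    split_ifs with h
    · exact cutT_inv (hτ.inv _) a
    · rfl
  · unfold cutFam
    split_ifs with h
    · exact cutT_fix (hτ.fix _ a (le_trans h ha))
    · rfl
  · rw [Bd.delta0_iff]
    have hp : ∀ i : Fin (K + 1), PF (fun v : Fin (K + 3 + 3) → ℕ => v i.succ.succ.succ.succ.succ) :=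
      fun i => PF.proj _
    have g1 : Bd (fun v : Fin (K + 3 + 3) → ℕ =>
        τ (fun i => v i.succ.succ.succ.succ.succ) (v 3) = v 0) := InvBd hτ (PF.proj 3) (PF.proj 0) hp
    have g2 : Bd (fun v : Fin (K + 3 + 3) → ℕ =>
        τ (fun i => v i.succ.succ.succ.succ.succ) (v 4) = v 0) := InvBd hτ (PF.proj 4) (PF.proj 0) hp
    have g3 : Bd (fun v : Fin (K + 3 + 3) → ℕ =>
        τ (fun i => v i.succ.succ.succ.succ.succ) (v 0) = v 1) := InvBd hτ (PF.proj 0) (PF.proj 1) hp
    have c1 : Bd (fun v : Fin (K + 3 + 3) → ℕ => v 0 = v 3 ∨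
        τ (fun i => v i.succ.succ.succ.succ.succ) (v 3) = v 0 ∨ v 0 = v 4 ∨
        τ (fun i => v i.succ.succ.succ.succ.succ) (v 4) = v 0) :=
      Bd.or (Bd.eqf (PF.proj 0) (PF.proj 3)) (Bd.or g1 (Bd.or (Bd.eqf (PF.proj 0) (PF.proj 4)) g2))
    refine (Bd.or (Bd.and (Bd.lef (PF.proj (5 : Fin (K + 3 + 3))) (PF.proj 2)) (Bd.or
      (Bd.and c1 (Bd.eqf (PF.proj 0) (PF.proj 1))) (Bd.and (Bd.not c1) g3)))
      (Bd.and (Bd.not (Bd.lef (PF.proj (5 : Fin (K + 3 + 3))) (PF.proj 2)))
        (Bd.eqf (PF.proj 0) (PF.proj 1)))).congr fun v => ?_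
    unfold cutFam
    by_cases h : v 5 ≤ v 2
    · rw [if_pos (by exact h)]
      have h1 := cutT_graph (T := τ (fun i => v i.succ.succ.succ.succ.succ)) (x := v 3) (y := v 4)
        (a := v 0) (b := v 1) (hτ.inv _)
      constructor
      · intro h2
        exact Or.inl ⟨h, h1.1 h2⟩
      · rintro (h2 | h2)
        · exact h1.2 h2.2
        · exact absurd h h2.1
    · rw [if_neg (by exact h)]
      constructor
      · intro h2
        exact Or.inr ⟨h, h2⟩
      · rintro (h2 | h2)
        · exact absurd h2.1 h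
        · exact h2.2

theorem cutFam_ends {K : ℕ} {τ : (Fin (K + 1) → ℕ) → ℕ → ℕ} (hE : ∀ p, HasEnds (τ p)) (q) :
    HasEnds (cutFam τ q) := by
  unfold cutFam
  split_ifs with h
  · exact hasEnds_cut (hE _)
  · exact fun a => ⟨a, ReflTransGen.refl, rfl⟩

end Pool.Agent.J4H96.TC
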