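import Pool.Agent.J4H96.TC.Core

/-!
# Deciding whether a graph is bipartite reveals the links
-/

set_option autoImplicit false

namespace Pool.Agent.J4H96.TC

open Pool.Agent.J4H63.GZ Relation

open Classical in
/-- the fixed points `u` and `w` are interchanged -/
noncomputable def jn (u w : ℕ) (T : ℕ → ℕ) (a : ℕ) : ℕ :=
  if T u = u ∧ T w = w then (if a = u then w else if a = w then u else T a) else T a

section

variable {T : ℕ → ℕ} {u w : ℕ}

theorem jn_off (h : ¬ (T u = u ∧ T w = w)) (a : ℕ) : jn u w T a = T a := if_neg h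

theorem jn_u (h : T u = u ∧ T w = w) : jn u w T u = w := by
  unfold jn; rw [if_pos h, if_pos rfl]

theorem jn_w (h : T u = u ∧ T w = w) : jn u w T w = u := by
  unfold jn; rw [if_pos h]
  by_cases h1 : w = u
  · rw [if_pos h1, h1]
  · rw [if_neg h1, if_pos rfl]

theorem jn_ne {a : ℕ} (hu : a ≠ u) (hw : a ≠ w) : jn u w T a = T a := by
  unfold jn
  rw [if_neg hu, if_neg hw]
  exact ite_self _

theorem jn_inv (hT : ∀ a, T (T a) = a) (a : ℕ) : jn u w T (jn u w T a) = a := by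
  by_cases h : T u = u ∧ T w = w
  · by_cases h1 : a = u
    · rw [h1, jn_u h, jn_w h]
    · by_cases h2 : a = w
      · rw [h2, jn_w h, jn_u h]
      · rw [jn_ne h1 h2, jn_ne, hT]
        · intro h3
          exact h1 (by rw [← hT a, h3, h.1])
        · intro h3
          exact h2 (by rw [← hT a, h3, h.2])
  · rw [jn_off h, jn_off h, hT]

/-- the steps of `T` are steps of the joined graph which avoid the new edge -/
theorem jn_rt (hT : ∀ a, T (T a) = a) (h : T u = u ∧ T w = w) {c d : ℕ} (hcd : Linked T c d) :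
    ReflTransGen (Stp (jn u w T) (3 * min u w + 2)) c d := by
  induction hcd with
  | refl => exact ReflTransGen.refl
  | @tail b d _ hbd ih =>
    rcases hbd with hbd | hbd
    · by_cases hb : T b = b
      · rw [hbd, hb]; exact ih
      · have hbu : b ≠ u := fun h1 => hb (by rw [h1]; exact h.1)
        have hbw : b ≠ w := fun h1 => hb (by rw [h1]; exact h.2)
        have hTu : T b ≠ u := fun h1 => hbu (by rw [← hT b, h1]; exact h.1)
        have hTw : T b ≠ w := fun h1 => hbw (by rw [← hT b, h1]; exact h.2)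
        refine ih.tail ⟨3 * min b (T b) + 2, ?_, Or.inr ⟨?_, ?_⟩, Or.inr ⟨?_, ?_⟩⟩
        · have h1 := min_choice b (T b)
          have h2 := min_choice u w
          omega
        · rw [jn_ne hbu hbw]; exact hb
        · rw [jn_ne hbu hbw]
        · rw [hbd, jn_ne hTu hTw, hT]; exact fun h1 => hb h1.symm
        · rw [hbd, jn_ne hTu hTw, hT, min_comm]
    · exact ih.tail ⟨sid b, by unfold sid; omega, inc_sid b, Or.inl (by unfold sid; omega)⟩

/-- the ends of an old edge are linked -/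
theorem jn_old (hT : ∀ a, T (T a) = a) (h : T u = u ∧ T w = w) {c d f : ℕ}
    (hc : Inc (jn u w T) c f) (hd : Inc (jn u w T) d f) (hf : f ≠ 3 * min u w + 2) :
    Linked T c d := by
  have key : ∀ c, jn u w T c ≠ c → f = 3 * min c (jn u w T c) + 2 → c ≠ u ∧ c ≠ w := by
    intro c _ h2
    refine ⟨fun h3 => ?_, fun h3 => ?_⟩
    · rw [h3, jn_u h] at h2
      exact hf h2
    · rw [h3, jn_w h, min_comm] at h2
      exact hf h2
  rcases hc with hc | ⟨hc', hc⟩
  · rcases hd with hd | ⟨hd', hd⟩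
    · exact ReflTransGen.single (Or.inr (by omega))
    · omega
  · rcases hd with hd | ⟨hd', hd⟩
    · omega
    · obtain ⟨h1, h2⟩ := key c hc' hc
      obtain ⟨h3, h4⟩ := key d hd' hd
      rw [jn_ne h1 h2] at hc' hc
      rw [jn_ne h3 h4] at hd' hd
      rcases stp_cases hT (e := 0) ⟨f, by omega, Or.inr ⟨hc', hc⟩, Or.inr ⟨hd', hd⟩⟩ with h5 | h5
      · exact ReflTransGen.single (Or.inr h5)
      · exact ReflTransGen.single (Or.inl h5)

theorem linked_symm' (hT : ∀ a, T (T a) = a) {c d : ℕ} (h : Linked T c d) : Linked T d c :=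
  (linked_iff_rt hT).2 (rt_symm ((linked_iff_rt hT).1 h))

/-- the joined graph is bipartite exactly if `u` and `w` are not linked -/
theorem jn_bip (hT : ∀ a, T (T a) = a) (h : T u = u ∧ T w = w) {B : ℕ} (hB : ∀ x < B, T x < B)
    (h2 : 2 ∣ B) (hu : u < B) (hw : w < B) (huw : u ≠ w) :
    Bipartite (Adj (jn u w T) B (3 * min u w + 2)) ↔ ¬ Linked T u w := by
  have hTj : ∀ a, jn u w T (jn u w T a) = a := jn_inv hT
  have hBj : ∀ x < B, jn u w T x < B := by
    intro x hx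
    by_cases h1 : x = u
    · rw [h1, jn_u h]; exact hw
    · by_cases h3 : x = w
      · rw [h3, jn_w h]; exact hu
      · rw [jn_ne h1 h3]; exact hB x hx
  have iu : Inc (jn u w T) u (3 * min u w + 2) := by
    refine Or.inr ⟨?_, ?_⟩
    · rw [jn_u h]; exact huw.symm
    · rw [jn_u h]
  have iw : Inc (jn u w T) w (3 * min u w + 2) := by
    refine Or.inr ⟨?_, ?_⟩
    · rw [jn_w h]; exact huw
    · rw [jn_w h, min_comm]
  constructor
  · rintro ⟨C, hC⟩ hl
    have e1 := rt_col hTj hBj h2 hC (jn_rt hT h hl) hu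
    have e2 := hC (3 * u) (3 * w) (Or.inr (Or.inr ⟨u, hu, w, hw, huw, iu, iw, rfl, rfl⟩))
    tauto
  · intro hl
    refine ⟨fun n => (n % 3 = 0 ∧ Linked T u (n / 3)) ∨
      (n % 3 ≠ 0 ∧ ¬ ∃ c, Inc (jn u w T) c n ∧ Linked T u c), ?_⟩
    have k0 : ∀ c, (((3 * c) % 3 = 0 ∧ Linked T u ((3 * c) / 3)) ∨
      ((3 * c) % 3 ≠ 0 ∧ ¬ ∃ c', Inc (jn u w T) c' (3 * c) ∧ Linked T u c')) ↔ Linked T u c := by
      intro c
      have e1 : 3 * c / 3 = c := by omega
      have e2 : 3 * c % 3 = 0 := by omega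
      rw [e1, e2]
      simp
    have k1 : ∀ c f, Inc (jn u w T) c f → f ≠ 3 * min u w + 2 → ((f % 3 = 0 ∧ Linked T u (f / 3)) ∨
      (f % 3 ≠ 0 ∧ ¬ ∃ c', Inc (jn u w T) c' f ∧ Linked T u c') ↔ ¬ Linked T u c) := by
      intro c f hc hf
      have hm := inc_mod hc
      constructor
      · rintro (h1 | h1)
        · exact absurd h1.1 hm
        · exact fun h3 => h1.2 ⟨c, hc, h3⟩
      · intro h1
        refine Or.inr ⟨hm, ?_⟩
        rintro ⟨c', h3, h4⟩
        exact h1 (h4.trans (jn_old hT h h3 hc hf))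
    intro a b hab
    rcases hab with ⟨c, hc, h1, h3, rfl⟩ | ⟨c, hc, h1, h3, rfl⟩ | ⟨c, hc, d, hd, h1, h3, h4, rfl, rfl⟩
    · simp only [k0, k1 c b h1 h3]
      tauto
    · simp only [k0, k1 c a h1 h3]
    · simp only [k0]
      have hcc : c = u ∨ c = w := by
        rcases inc_ends hTj h3 iu iw with h5 | h5 | h5
        · exact Or.inl h5
        · exact Or.inr h5
        · exact absurd h5 huw
      have hdd : d = u ∨ d = w := by
        rcases inc_ends hTj h4 iu iw with h5 | h5 | h5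
        · exact Or.inl h5
        · exact Or.inr h5
        · exact absurd h5 huw
      have hr : Linked T u u := ReflTransGen.refl
      rcases hcc with rfl | rfl <;> rcases hdd with rfl | rfl
      · exact absurd rfl h1
      · tauto
      · tauto
      · exact absurd rfl h1

end

/-! ### The family -/

open Classical in
/-- the parameters are `L, u, w, p`, with `L ≥ p 0` and `L > u, w` -/
noncomputable def jnFam {K : ℕ} (τ : (Fin (K + 1) → ℕ) → ℕ → ℕ) (q : Fin (K + 4) → ℕ) : ℕ → ℕ :=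
  if q 3 ≤ q 0 ∧ q 1 < q 0 ∧ q 2 < q 0 then jn (q 1) (q 2) (τ (fun i => q i.succ.succ.succ))
  else fun a => a

theorem jn_graph {T : ℕ → ℕ} {u w a b : ℕ} : jn u w T a = b ↔
    ((T u = u ∧ T w = w) ∧ ((a = u ∧ w = b) ∨ (¬ a = u ∧ a = w ∧ u = b) ∨
      (¬ a = u ∧ ¬ a = w ∧ T a = b))) ∨ (¬ (T u = u ∧ T w = w) ∧ T a = b) := by
  by_cases h : T u = u ∧ T w = w
  · by_cases h1 : a = u
    · rw [h1, jn_u h]; tauto
    · by_cases h2 : a = w
      · rw [h2, jn_w h]
        have : ¬ w = u := fun h3 => h1 (h2.trans h3)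
        tauto
      · rw [jn_ne h1 h2]; tauto
  · rw [jn_off h]; tauto

theorem jn_fam {K : ℕ} {τ : (Fin (K + 1) → ℕ) → ℕ → ℕ} (hτ : InvFamily K τ) :
    InvFamily (K + 3) (jnFam τ) := by
  refine ⟨fun q a => ?_, fun q a ha => ?_, ?_⟩
  · unfold jnFam
    split_ifs with h
    · exact jn_inv (hτ.inv _) a
    · rfl
  · unfold jnFam
    split_ifs with h
    · rw [jn_ne (by omega) (by omega)]
      exact hτ.fix _ a (le_trans h.1 ha)
    · rfl
  · rw [Bd.delta0_iff]
    have hp : ∀ i : Fin (K + 1), PF (fun v : Fin (K + 3 + 3) → ℕ => v i.succ.succ.succ.succ.succ) :=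
      fun i => PF.proj _
    have pj : ∀ i : Fin (K + 3 + 3), PF (fun v : Fin (K + 3 + 3) → ℕ => v i) := fun i => PF.proj _
    have c0 : Bd (fun v : Fin (K + 3 + 3) → ℕ => v 5 ≤ v 2 ∧ v 3 < v 2 ∧ v 4 < v 2) :=
      Bd.and (Bd.lef (pj 5) (pj 2)) (Bd.and (Bd.ltf (pj 3) (pj 2)) (Bd.ltf (pj 4) (pj 2)))
    have c1 : Bd (fun v : Fin (K + 3 + 3) → ℕ =>
        τ (fun i => v i.succ.succ.succ.succ.succ) (v 3) = v 3 ∧
        τ (fun i => v i.succ.succ.succ.succ.succ) (v 4) = v 4) :=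
      Bd.and (InvBd hτ (pj 3) (pj 3) hp) (InvBd hτ (pj 4) (pj 4) hp)
    have g : Bd (fun v : Fin (K + 3 + 3) → ℕ =>
        τ (fun i => v i.succ.succ.succ.succ.succ) (v 0) = v 1) := InvBd hτ (pj 0) (pj 1) hp
    refine (Bd.or (Bd.and c0 (Bd.or (Bd.and c1 (Bd.or (Bd.and (Bd.eqf (pj 0) (pj 3))
      (Bd.eqf (pj 4) (pj 1))) (Bd.or (Bd.and (Bd.not (Bd.eqf (pj 0) (pj 3)))
      (Bd.and (Bd.eqf (pj 0) (pj 4)) (Bd.eqf (pj 3) (pj 1))))
      (Bd.and (Bd.not (Bd.eqf (pj 0) (pj 3))) (Bd.and (Bd.not (Bd.eqf (pj 0) (pj 4))) g)))))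
      (Bd.and (Bd.not c1) g)))
      (Bd.and (Bd.not c0) (Bd.eqf (pj 0) (pj 1)))).congr fun v => ?_
    have h1 := jn_graph (T := τ (fun i => v i.succ.succ.succ.succ.succ)) (u := v 3) (w := v 4)
      (a := v 0) (b := v 1)
    unfold jnFam
    by_cases h : v 5 ≤ v 2 ∧ v 3 < v 2 ∧ v 4 < v 2
    · rw [if_pos (by exact h)]
      constructor
      · intro h2
        exact Or.inl ⟨h, h1.1 h2⟩
      · rintro (h2 | h2)
        · exact h1.2 h2.2
        · exact absurd h h2.1
    · rw [if_neg (by exact h)]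
      constructor
      · intro h2
        exact Or.inr ⟨h, h2⟩
      · rintro (h2 | h2)
        · exact absurd h2.1 h
        · exact h2.2

/-! ### The formula -/

section

variable {K : ℕ}

/-- the parameters of the joined graph -/
def jv (v : Fin (K + 3) → ℕ) (u w : ℕ) : Fin (K + 7) → ℕ :=
  Matrix.vecCons (2 * mm v) (Matrix.vecCons u (Matrix.vecCons w (cv v)))

def kv (v : Fin (K + 3) → ℕ) (u w f : ℕ) : Fin (K + 10) → ℕ :=
  Matrix.vecCons (6 * mm v) (Matrix.vecCons (mm v) (Matrix.vecCons f (jv v u w)))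

def GrmD (D : (Fin (K + 10) → ℕ) → Prop) (τ : (Fin (K + 1) → ℕ) → ℕ → ℕ)
    (v : Fin (K + 3) → ℕ) : Prop :=
  v 1 = v 0 ∨ τ (fun i => v i.succ.succ) (v 0) = v 1 ∨ ∃ u ≤ 2 * mm v, ∃ w ≤ 2 * mm v,
    (u = v 0 ∨ τ (fun i => v i.succ.succ) (v 0) = u) ∧
    (w = v 1 ∨ τ (fun i => v i.succ.succ) (v 1) = w) ∧ ¬ u = w ∧
    ∃ m ≤ u, m = min u w ∧ ¬ D (kv v u w (3 * m + 2))

variable {D : (Fin (K + 10) → ℕ) → Prop} {τ : (Fin (K + 1) → ℕ) → ℕ → ℕ} {ι : Type}
  {V : Fin (K + 3) → (ι → ℕ) → ℕ} {u w f c : (ι → ℕ) → ℕ}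

theorem pf_kv (hV : ∀ i, PF (V i)) (hu : PF u) (hw : PF w) (hf : PF f) :
    ∀ i, PF (fun s : ι → ℕ => kv (fun i => V i s) (u s) (w s) (f s) i) :=
  PF.cons ((PF.const 6).mul (pf_mm hV)) (PF.cons (pf_mm hV) (PF.cons hf
    (PF.cons ((PF.const 2).mul (pf_mm hV)) (PF.cons hu (PF.cons hw (pf_cv hV))))))

theorem bd_GrmD (hτ : InvFamily K τ) (hD : Delta0 (K + 9 + 1) D) :
    Bd (fun v : Fin (K + 3) → ℕ => GrmD D τ v) := by
  have h0 : ∀ i, PF (fun v : Fin (K + 3) → ℕ => v i) := fun i => PF.proj i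
  have hm : PF (fun v : Fin (K + 3) → ℕ => 2 * mm (fun i => v i)) := (PF.const 2).mul (pf_mm h0)
  refine Bd.or (Bd.eqf (h0 1) (h0 0)) (Bd.or (InvBd hτ (h0 0) (h0 1) (p := fun i v =>
    v i.succ.succ) fun i => h0 _) ?_)
  refine Bd.ex_le (b := fun v => 2 * mm v) (P := fun v u => ∃ w ≤ 2 * mm v,
    (u = v 0 ∨ τ (fun i => v i.succ.succ) (v 0) = u) ∧
    (w = v 1 ∨ τ (fun i => v i.succ.succ) (v 1) = w) ∧ ¬ u = w ∧
    ∃ m ≤ u, m = min u w ∧ ¬ D (kv v u w (3 * m + 2))) hm ?_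
  have h1 : ∀ i, PF (fun v : Option (Fin (K + 3)) → ℕ => v (some i)) := fun i => PF.proj _
  refine Bd.ex_le (b := fun s : Option (Fin (K + 3)) → ℕ => 2 * mm (fun i => s (some i)))
    (P := fun s w => (s none = s (some 0) ∨ τ (fun i => s (some i.succ.succ)) (s (some 0)) = s none) ∧
    (w = s (some 1) ∨ τ (fun i => s (some i.succ.succ)) (s (some 1)) = w) ∧ ¬ s none = w ∧
    ∃ m ≤ s none, m = min (s none) w ∧ ¬ D (kv (fun i => s (some i)) (s none) w (3 * m + 2)))
    ((PF.const 2).mul (pf_mm h1)) ?_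
  have h2 : ∀ i, PF (fun v : Option (Option (Fin (K + 3))) → ℕ => v (some (some i))) :=
    fun i => PF.proj _
  have hu : PF (fun v : Option (Option (Fin (K + 3))) → ℕ => v (some none)) := PF.proj _
  have hw : PF (fun v : Option (Option (Fin (K + 3))) → ℕ => v none) := PF.proj _
  refine Bd.and (Bd.or (Bd.eqf hu (h2 0)) (InvBd hτ (h2 0) hu (p := fun i
    (s : Option (Option (Fin (K + 3))) → ℕ) => s (some (some i.succ.succ))) fun i => h2 _))
    (Bd.and (Bd.or (Bd.eqf hw (h2 1)) (InvBd hτ (h2 1) hw (p := fun i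
    (s : Option (Option (Fin (K + 3))) → ℕ) => s (some (some i.succ.succ))) fun i => h2 _))
    (Bd.and (Bd.not (Bd.eqf hu hw)) ?_))
  refine Bd.ex_le (b := fun s : Option (Option (Fin (K + 3))) → ℕ => s (some none))
    (P := fun s m => m = min (s (some none)) (s none) ∧
      ¬ D (kv (fun i => s (some (some i))) (s (some none)) (s none) (3 * m + 2))) hu ?_
  have h3 : ∀ i, PF (fun v : Option (Option (Option (Fin (K + 3)))) → ℕ =>
    v (some (some (some i)))) := fun i => PF.proj _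
  have hu' : PF (fun v : Option (Option (Option (Fin (K + 3)))) → ℕ => v (some (some none))) :=
    PF.proj _
  have hw' : PF (fun v : Option (Option (Option (Fin (K + 3)))) → ℕ => v (some none)) :=
    PF.proj _
  have hc' : PF (fun v : Option (Option (Option (Fin (K + 3)))) → ℕ => v none) := PF.proj _
  refine Bd.and (Bd.eq_min hc' hu' hw') (Bd.not ?_)
  refine ((Bd.of_delta0 hD).subst (f := fun i (s : Option (Option (Option (Fin (K + 3)))) → ℕ) =>
    kv (fun i => s (some (some (some i)))) (s (some (some none))) (s (some none))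
      (3 * s none + 2) i) (pf_kv h3 hu' hw' (((PF.const 3).mul hc').add (PF.const 2)))).congr
      fun v => ?_
  exact Iff.rfl

end

theorem t_DEC (hFAM : S_FAM) : S_DEC := by
  intro H2 K τ hτ
  have hcf := cut_fam hτ
  have hjf := jn_fam hcf
  have hG := hFAM (K + 3 + 3) (jnFam (cutFam τ)) hjf
  have hD := H2 (K + 3 + 3 + 3) _ hG
  rw [Bd.delta0_iff]
  refine (bd_GrmD hτ hD).congr fun v => ?_
  set p : Fin (K + 1) → ℕ := fun i => v i.succ.succ with hp
  set T := cutT (v 0) (v 1) (τ p) with hTdef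
  have hT : ∀ a, T (T a) = a := cutT_inv (hτ.inv p)
  have hp0 : p 0 ≤ 2 * mm v := by
    change v 2 ≤ 2 * (v 0 + v 1 + v 2 + 1)
    omega
  have hτB : ∀ a < 2 * mm v, τ p a < 2 * mm v := fun a ha => hτ.lt p hp0 ha
  have hTB : ∀ a < 2 * mm v, T a < 2 * mm v := by
    intro a ha
    by_cases h : a = v 0 ∨ a = τ p (v 0) ∨ a = v 1 ∨ a = τ p (v 1)
    · rw [hTdef, cutT_pos h]; exact ha
    · rw [hTdef, cutT_neg h]; exact hτB a ha
  have h2B : 2 ∣ 2 * mm v := Dvd.intro _ rfl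
  have hx : v 0 < 2 * mm v := by unfold mm; omega
  have hy : v 1 < 2 * mm v := by unfold mm; omega
  have hcut : cutFam τ (cv v) = T := cutFam_cv v
  have hfix : ∀ a, (a = v 0 ∨ a = τ p (v 0) ∨ a = v 1 ∨ a = τ p (v 1)) → T a = a :=
    fun a ha => cutT_pos ha
  have hjn : ∀ u w, u < 2 * mm v → w < 2 * mm v → jnFam (cutFam τ) (jv v u w) = jn u w T := by
    intro u w hu hw
    unfold jnFam
    rw [if_pos (by exact ⟨hp0, hu, hw⟩)]
    change jn u w (cutFam τ (cv v)) = _
    rw [hcut]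
  have hbip : ∀ u w f, u < 2 * mm v → w < 2 * mm v →
      ((fun a b => kv v u w f 3 ≤ 2 * kv v u w f 1 ∧ 6 * kv v u w f 1 ≤ kv v u w f 0 ∧
        Adj (jnFam (cutFam τ) (fun i => kv v u w f i.succ.succ.succ)) (2 * kv v u w f 1)
          (kv v u w f 2) a b) = Adj (jn u w T) (2 * mm v) f) := by
    intro u w f hu hw
    funext a b
    refine propext ⟨fun h => ?_, fun h => ⟨le_rfl, le_rfl, ?_⟩⟩
    · have h3 := h.2.2
      change Adj (jnFam (cutFam τ) (jv v u w)) (2 * mm v) f a b at h3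
      rw [hjn u w hu hw] at h3
      exact h3
    · change Adj (jnFam (cutFam τ) (jv v u w)) (2 * mm v) f a b
      rw [hjn u w hu hw]
      exact h
  have hmain := link_iff_cut (x := v 0) (y := v 1) (hτ.inv p)
  change Linked (τ p) (v 0) (v 1) ↔ _
  rw [hmain]
  have key : ∀ u w, (u = v 0 ∨ u = τ p (v 0)) → (w = v 1 ∨ w = τ p (v 1)) → u ≠ w →
      u < 2 * mm v ∧ w < 2 * mm v ∧ (Bipartite (fun a b => kv v u w (3 * min u w + 2) 3 ≤
        2 * kv v u w (3 * min u w + 2) 1 ∧ 6 * kv v u w (3 * min u w + 2) 1 ≤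
        kv v u w (3 * min u w + 2) 0 ∧
        Adj (jnFam (cutFam τ) (fun i => kv v u w (3 * min u w + 2) i.succ.succ.succ))
          (2 * kv v u w (3 * min u w + 2) 1)
          (kv v u w (3 * min u w + 2) 2) a b) ↔ ¬ Linked T u w) := by
    intro u w hu hw huw
    have hu' : u < 2 * mm v := by
      rcases hu with hu | hu
      · rw [hu]; exact hx
      · rw [hu]; exact hτB _ hx
    have hw' : w < 2 * mm v := by
      rcases hw with hw | hw
      · rw [hw]; exact hy
      · rw [hw]; exact hτB _ hy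
    refine ⟨hu', hw', ?_⟩
    rw [hbip u w _ hu' hw']
    exact jn_bip hT ⟨hfix u (by tauto), hfix w (by tauto)⟩ hTB h2B hu' hw' huw
  constructor
  · rintro (h | h | ⟨u, w, hu, hw, huw, h⟩)
    · exact Or.inl h
    · exact Or.inr (Or.inl h.symm)
    · obtain ⟨hu', hw', hk⟩ := key u w hu hw huw
      refine Or.inr (Or.inr ⟨u, hu'.le, w, hw'.le, ?_, ?_, huw, min u w, min_le_left _ _, rfl, ?_⟩)
      · rcases hu with hu | hu
        · exact Or.inl hu
        · exact Or.inr hu.symm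
      · rcases hw with hw | hw
        · exact Or.inl hw
        · exact Or.inr hw.symm
      · exact fun h1 => hk.1 h1 h
  · rintro (h | h | ⟨u, _, w, _, hu, hw, huw, m, _, hm, h⟩)
    · exact Or.inl h
    · exact Or.inr (Or.inl h.symm)
    · have hu1 : u = v 0 ∨ u = τ p (v 0) := by
        rcases hu with hu | hu
        · exact Or.inl hu
        · exact Or.inr hu.symm
      have hw1 : w = v 1 ∨ w = τ p (v 1) := by
        rcases hw with hw | hw
        · exact Or.inl hw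
        · exact Or.inr hw.symm
      obtain ⟨hu', hw', hk⟩ := key u w hu1 hw1 huw
      subst hm
      refine Or.inr (Or.inr ⟨u, w, hu1, hw1, huw, ?_⟩)
      by_contra hcon
      exact h (hk.2 hcon)

end Pool.Agent.J4H96.TC
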