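import Pool.Agent.J4H96.TC.Core

/-!
# The family of graphs
-/

set_option autoImplicit false

namespace Pool.Agent.J4H96.TC

open Pool.Agent.J4H63.GZ Relation

section

variable {T : ℕ → ℕ} {B e : ℕ}

theorem adj_symm {a b : ℕ} (h : Adj T B e a b) : Adj T B e b a := by
  rcases h with h | h | ⟨c, hc, d, hd, h1, h2, h3, h4, h5⟩
  · exact Or.inr (Or.inl h)
  · exact Or.inl h
  · exact Or.inr (Or.inr ⟨d, hd, c, hc, h1.symm, h3, h2, h5, h4⟩)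

theorem adj_ne {a b : ℕ} (h : Adj T B e a b) : a ≠ b := by
  rcases h with ⟨c, hc, h1, h2, h3⟩ | ⟨c, hc, h1, h2, h3⟩ | ⟨c, hc, d, hd, h1, h2, h3, h4, h5⟩
  · have := inc_mod h1; omega
  · have := inc_mod h1; omega
  · omega

theorem adj_lt {M a b : ℕ} (h : Adj T (2 * M) e a b) : a < 6 * M := by
  rcases h with ⟨c, hc, h1, h2, h3⟩ | ⟨c, hc, h1, h2, h3⟩ | ⟨c, hc, d, hd, h1, h2, h3, h4, h5⟩
  · omega
  · rcases h1 with h1 | ⟨_, h1⟩
    · omega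
    · have := min_le_left c (T c)
      omega
  · omega

theorem adj_zero {x b : ℕ} (h : Adj T B e (3 * x) b) : (Inc T x b ∧ b ≠ e) ∨
    ∃ y, y ≠ x ∧ Inc T x e ∧ Inc T y e ∧ b = 3 * y := by
  rcases h with ⟨c, hc, h1, h2, h3⟩ | ⟨c, hc, h1, h2, h3⟩ | ⟨c, hc, d, hd, h1, h2, h3, h4, h5⟩
  · obtain rfl : x = c := by omega
    exact Or.inl ⟨h1, h2⟩
  · have := inc_mod h1; omega
  · obtain rfl : x = c := by omega
    exact Or.inr ⟨d, h1.symm, h2, h3, h5⟩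

theorem adj_mid {a b : ℕ} (ha : a % 3 ≠ 0) (h : Adj T B e a b) :
    ∃ c < B, Inc T c a ∧ b = 3 * c := by
  rcases h with ⟨c, hc, h1, h2, h3⟩ | ⟨c, hc, h1, h2, h3⟩ | ⟨c, hc, d, hd, h1, h2, h3, h4, h5⟩
  · omega
  · exact ⟨c, hc, h1, h3⟩
  · omega

theorem adj_num (hT : ∀ x, T (T x) = x) {x b b' f f' : ℕ}
    (h : (f = b ∧ b ≠ e) ∨ (f = e ∧ ∃ y, y ≠ x ∧ Inc T x e ∧ Inc T y e ∧ b = 3 * y))
    (h' : (f' = b' ∧ b' ≠ e) ∨ (f' = e ∧ ∃ y, y ≠ x ∧ Inc T x e ∧ Inc T y e ∧ b' = 3 * y))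
    (hf : f = f') : b = b' := by
  rcases h with ⟨h1, h2⟩ | ⟨h1, y, h2, h3, h4, h5⟩
  · rcases h' with ⟨h1', h2'⟩ | ⟨h1', h2'⟩
    · omega
    · omega
  · rcases h' with ⟨h1', h2'⟩ | ⟨h1', y', h2', h3', h4', h5'⟩
    · omega
    · rw [h5, h5', inc_other hT h3 h4 h4' h2 h2']

theorem adj_num' {x b : ℕ} (h : Adj T B e (3 * x) b) : ∃ f, Inc T x f ∧
    ((f = b ∧ b ≠ e) ∨ (f = e ∧ ∃ y, y ≠ x ∧ Inc T x e ∧ Inc T y e ∧ b = 3 * y)) := by
  rcases adj_zero h with ⟨h1, h2⟩ | ⟨y, h1, h2, h3⟩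
  · exact ⟨b, h1, Or.inl ⟨rfl, h2⟩⟩
  · exact ⟨e, h2, Or.inr ⟨rfl, y, h1, h2, h3⟩⟩

theorem adj_deg (hT : ∀ x, T (T x) = x) {a b c d : ℕ} (h1 : Adj T B e a b) (h2 : Adj T B e a c)
    (h3 : Adj T B e a d) : b = c ∨ b = d ∨ c = d := by
  by_cases ha : a % 3 = 0
  · obtain ⟨x, rfl⟩ : ∃ x, a = 3 * x := ⟨a / 3, by omega⟩
    obtain ⟨f1, i1, g1⟩ := adj_num' h1
    obtain ⟨f2, i2, g2⟩ := adj_num' h2
    obtain ⟨f3, i3, g3⟩ := adj_num' h3
    rcases inc_two i1 i2 i3 with h | h | h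
    · exact Or.inl (adj_num hT g1 g2 h)
    · exact Or.inr (Or.inl (adj_num hT g1 g3 h))
    · exact Or.inr (Or.inr (adj_num hT g2 g3 h))
  · obtain ⟨x, _, i1, e1⟩ := adj_mid ha h1
    obtain ⟨y, _, i2, e2⟩ := adj_mid ha h2
    obtain ⟨z, _, i3, e3⟩ := adj_mid ha h3
    rcases inc_ends hT i1 i2 i3 with h | h | h <;> omega

end

section

variable {K : ℕ} {τ : (Fin (K + 1) → ℕ) → ℕ → ℕ} {ι : Type}

theorem bd_Inc (hτ : InvFamily K τ) {p : Fin (K + 1) → (ι → ℕ) → ℕ} {c f : (ι → ℕ) → ℕ}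
    (hp : ∀ i, PF (p i)) (hc : PF c) (hf : PF f) :
    Bd (fun s : ι → ℕ => Inc (τ (fun i => p i s)) (c s) (f s)) := by
  have h1 : Bd (fun s : ι → ℕ => ∃ j ≤ c s, (c s = 2 * j ∨ c s = 2 * j + 1) ∧ f s = 6 * j + 1) := by
    refine Bd.ex_le (b := c) (P := fun s j => (c s = 2 * j ∨ c s = 2 * j + 1) ∧ f s = 6 * j + 1)
      hc ?_
    exact Bd.and (Bd.or (Bd.eqf (up hc) ((PF.const 2).mul (PF.proj none)))
      (Bd.eqf (up hc) (((PF.const 2).mul (PF.proj none)).add (PF.const 1))))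
      (Bd.eqf (up hf) (((PF.const 6).mul (PF.proj none)).add (PF.const 1)))
  have h2 : Bd (fun s : ι → ℕ => ∃ c' ≤ c s + p 0 s, τ (fun i => p i s) (c s) = c' ∧ ¬ c' = c s ∧
      ∃ m ≤ c s, m = min (c s) c' ∧ f s = 3 * m + 2) := by
    refine Bd.ex_le (b := fun s => c s + p 0 s) (P := fun s c' => τ (fun i => p i s) (c s) = c' ∧
      ¬ c' = c s ∧ ∃ m ≤ c s, m = min (c s) c' ∧ f s = 3 * m + 2) (hc.add (hp 0)) ?_
    refine Bd.and (InvBd hτ (up hc) (PF.proj none) (p := fun i (s : Option ι → ℕ) =>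
      p i (fun j => s (some j))) fun i => up (hp i)) (Bd.and (Bd.not (Bd.eqf (PF.proj none) (up hc)))
      ?_)
    refine Bd.ex_le (b := fun s : Option ι → ℕ => c (fun i => s (some i))) (P := fun s m =>
      m = min (c (fun i => s (some i))) (s none) ∧ f (fun i => s (some i)) = 3 * m + 2) (up hc) ?_
    exact Bd.and (Bd.eq_min (PF.proj none) (up (up hc)) (PF.proj (some none)))
      (Bd.eqf (up (up hf)) (((PF.const 3).mul (PF.proj none)).add (PF.const 2)))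
  refine (Bd.or h1 h2).congr fun s => ?_
  constructor
  · rintro (h | ⟨h, h'⟩)
    · exact Or.inl ⟨c s / 2, by omega, by omega, by omega⟩
    · right
      have h3 : τ (fun i => p i s) (c s) < c s + p 0 s + 1 :=
        hτ.lt (fun i => p i s) (N := c s + p 0 s + 1) (by omega) (by omega)
      exact ⟨_, by omega, rfl, h, _, min_le_left _ _, rfl, h'⟩
  · rintro (⟨j, _, h1, h2⟩ | ⟨c', _, h1, h2, m, _, h3, h4⟩)
    · left; omega
    · right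
      subst h1
      refine ⟨h2, ?_⟩
      rw [h4, h3]

end

theorem t_FAM : S_FAM := by
  intro K τ hτ
  refine ⟨fun q a b h => ⟨h.1, h.2.1, adj_symm h.2.2⟩, fun q a b h => adj_ne h.2.2,
    fun q a b h => lt_of_lt_of_le (adj_lt h.2.2) h.2.1, fun q a b c d h1 h2 h3 =>
      adj_deg (hτ.inv _) h1.2.2 h2.2.2 h3.2.2, ?_⟩
  rw [Bd.delta0_iff]
  have hp : ∀ i : Fin (K + 1), PF (fun v : Fin (K + 3 + 3) → ℕ => v i.succ.succ.succ.succ.succ) :=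
    fun i => PF.proj _
  have hB : PF (fun v : Fin (K + 3 + 3) → ℕ => 2 * v 3) := (PF.const 2).mul (PF.proj 3)
  have n1 : ∀ j : Fin (K + 3 + 3), PF (fun v : Option (Fin (K + 3 + 3)) → ℕ => v (some j)) :=
    fun j => PF.proj _
  have n2 : ∀ j : Fin (K + 3 + 3), PF (fun v : Option (Option (Fin (K + 3 + 3))) → ℕ =>
    v (some (some j))) := fun j => PF.proj _
  have b1 : Bd (fun v : Fin (K + 3 + 3) → ℕ => ∃ c < 2 * v 3,
      Inc (τ (fun i => v i.succ.succ.succ.succ.succ)) c (v 1) ∧ ¬ v 1 = v 4 ∧ v 0 = 3 * c) := by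
    refine Bd.ex_lt (b := fun v : Fin (K + 3 + 3) → ℕ => 2 * v 3) (P := fun v c =>
      Inc (τ (fun i => v i.succ.succ.succ.succ.succ)) c (v 1) ∧ ¬ v 1 = v 4 ∧ v 0 = 3 * c) hB ?_
    exact Bd.and (bd_Inc hτ (p := fun i (v : Option (Fin (K + 3 + 3)) → ℕ) =>
      v (some i.succ.succ.succ.succ.succ)) (fun i => n1 _) (PF.proj none) (n1 1))
      (Bd.and (Bd.not (Bd.eqf (n1 1) (n1 4))) (Bd.eqf (n1 0) ((PF.const 3).mul (PF.proj none))))
  have b2 : Bd (fun v : Fin (K + 3 + 3) → ℕ => ∃ c < 2 * v 3,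
      Inc (τ (fun i => v i.succ.succ.succ.succ.succ)) c (v 0) ∧ ¬ v 0 = v 4 ∧ v 1 = 3 * c) := by
    refine Bd.ex_lt (b := fun v : Fin (K + 3 + 3) → ℕ => 2 * v 3) (P := fun v c =>
      Inc (τ (fun i => v i.succ.succ.succ.succ.succ)) c (v 0) ∧ ¬ v 0 = v 4 ∧ v 1 = 3 * c) hB ?_
    exact Bd.and (bd_Inc hτ (p := fun i (v : Option (Fin (K + 3 + 3)) → ℕ) =>
      v (some i.succ.succ.succ.succ.succ)) (fun i => n1 _) (PF.proj none) (n1 0))
      (Bd.and (Bd.not (Bd.eqf (n1 0) (n1 4))) (Bd.eqf (n1 1) ((PF.const 3).mul (PF.proj none))))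
  have b3 : Bd (fun v : Fin (K + 3 + 3) → ℕ => ∃ c < 2 * v 3, ∃ d < 2 * v 3, ¬ c = d ∧
      Inc (τ (fun i => v i.succ.succ.succ.succ.succ)) c (v 4) ∧
      Inc (τ (fun i => v i.succ.succ.succ.succ.succ)) d (v 4) ∧ v 0 = 3 * c ∧ v 1 = 3 * d) := by
    refine Bd.ex_lt (b := fun v : Fin (K + 3 + 3) → ℕ => 2 * v 3) (P := fun v c =>
      ∃ d < 2 * v 3, ¬ c = d ∧
      Inc (τ (fun i => v i.succ.succ.succ.succ.succ)) c (v 4) ∧
      Inc (τ (fun i => v i.succ.succ.succ.succ.succ)) d (v 4) ∧ v 0 = 3 * c ∧ v 1 = 3 * d) hB ?_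
    refine Bd.ex_lt (b := fun v : Option (Fin (K + 3 + 3)) → ℕ => 2 * v (some 3)) (P := fun v d =>
      ¬ v none = d ∧
      Inc (τ (fun i => v (some i.succ.succ.succ.succ.succ))) (v none) (v (some 4)) ∧
      Inc (τ (fun i => v (some i.succ.succ.succ.succ.succ))) d (v (some 4)) ∧
      v (some 0) = 3 * v none ∧ v (some 1) = 3 * d) ((PF.const 2).mul (n1 3)) ?_
    have hc : PF (fun v : Option (Option (Fin (K + 3 + 3))) → ℕ => v (some none)) := PF.proj _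
    have hd : PF (fun v : Option (Option (Fin (K + 3 + 3))) → ℕ => v none) := PF.proj _
    exact Bd.and (Bd.not (Bd.eqf hc hd)) (Bd.and (bd_Inc hτ
      (p := fun i (v : Option (Option (Fin (K + 3 + 3))) → ℕ) =>
      v (some (some i.succ.succ.succ.succ.succ))) (fun i => n2 _) hc (n2 4))
      (Bd.and (bd_Inc hτ (p := fun i (v : Option (Option (Fin (K + 3 + 3))) → ℕ) =>
      v (some (some i.succ.succ.succ.succ.succ))) (fun i => n2 _) hd (n2 4))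
      (Bd.and (Bd.eqf (n2 0) ((PF.const 3).mul hc)) (Bd.eqf (n2 1) ((PF.const 3).mul hd)))))
  refine (Bd.and (Bd.lef (PF.proj (5 : Fin (K + 3 + 3))) hB) (Bd.and
    (Bd.lef ((PF.const 6).mul (PF.proj (3 : Fin (K + 3 + 3)))) (PF.proj 2))
    (Bd.or b1 (Bd.or b2 b3)))).congr fun v => ?_
  exact Iff.rfl

end Pool.Agent.J4H96.TC
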