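import Pool.Agent.J4H96.TC.Stm

/-!
# Two-colourings: the graph theory
-/

set_option autoImplicit false

namespace Pool.Agent.J4H96.TC

open Pool.Agent.J4H63.GZ Relation

/-- the number of the edge `{2 j, 2 j + 1}` at `c` -/
def sid (c : ℕ) : ℕ := 3 * (2 * (c / 2)) + 1

/-- the number of the edge `{c, T c}` -/
def tid (T : ℕ → ℕ) (c : ℕ) : ℕ := 3 * min c (T c) + 2

section

variable {T : ℕ → ℕ}

theorem inc_iff {c f : ℕ} : Inc T c f ↔ f = sid c ∨ (T c ≠ c ∧ f = tid T c) := Iff.rfl

theorem inc_sid (c : ℕ) : Inc T c (sid c) := Or.inl rfl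

theorem inc_mod {c f : ℕ} (h : Inc T c f) : f % 3 ≠ 0 := by
  rcases h with h | ⟨_, h⟩ <;> omega

theorem inc_two {c f f' f'' : ℕ} (h : Inc T c f) (h' : Inc T c f') (h'' : Inc T c f'') :
    f = f' ∨ f = f'' ∨ f' = f'' := by
  rcases h with h | ⟨_, h⟩ <;> rcases h' with h' | ⟨_, h'⟩ <;> rcases h'' with h'' | ⟨_, h''⟩ <;>
    omega

theorem min_cases (hT : ∀ x, T (T x) = x) (c : ℕ) :
    c = min c (T c) ∨ c = T (min c (T c)) := by
  rcases le_total c (T c) with h | h
  · left; rw [min_eq_left h]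
  · right; rw [min_eq_right h, hT]

theorem inc_ends (hT : ∀ x, T (T x) = x) {c c' c'' f : ℕ} (h : Inc T c f) (h' : Inc T c' f)
    (h'' : Inc T c'' f) : c = c' ∨ c = c'' ∨ c' = c'' := by
  rcases h with h | ⟨_, h⟩
  · rcases h' with h' | ⟨_, h'⟩
    · rcases h'' with h'' | ⟨_, h''⟩ <;> omega
    · omega
  · rcases h' with h' | ⟨_, h'⟩
    · omega
    · rcases h'' with h'' | ⟨_, h''⟩
      · omega
      · have e1 : min c' (T c') = min c (T c) := by omega
        have e2 : min c'' (T c'') = min c (T c) := by omega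
        have m1 := min_cases hT c
        have m2 := min_cases hT c'
        have m3 := min_cases hT c''
        rw [e1] at m2
        rw [e2] at m3
        rcases m1 with m1 | m1 <;> rcases m2 with m2 | m2 <;> rcases m3 with m3 | m3
        · left; exact m1.trans m2.symm
        · left; exact m1.trans m2.symm
        · right; left; exact m1.trans m3.symm
        · right; right; exact m2.trans m3.symm
        · right; right; exact m2.trans m3.symm
        · right; left; exact m1.trans m3.symm
        · left; exact m1.trans m2.symm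
        · left; exact m1.trans m2.symm

theorem inc_other (hT : ∀ x, T (T x) = x) {c d d' f : ℕ} (h : Inc T c f) (hd : Inc T d f)
    (hd' : Inc T d' f) (h1 : d ≠ c) (h2 : d' ≠ c) : d = d' := by
  rcases inc_ends hT h hd hd' with h3 | h3 | h3
  · exact absurd h3.symm h1
  · exact absurd h3.symm h2
  · exact h3

theorem stp_symm {e c d : ℕ} (h : Stp T e c d) : Stp T e d c := by
  obtain ⟨f, h1, h2, h3⟩ := h
  exact ⟨f, h1, h3, h2⟩

theorem rt_symm {e c d : ℕ} (h : ReflTransGen (Stp T e) c d) : ReflTransGen (Stp T e) d c := by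
  induction h with
  | refl => exact ReflTransGen.refl
  | tail _ hbc ih => exact (ReflTransGen.single (stp_symm hbc)).trans ih

theorem stp_pair {c d : ℕ} (h : d / 2 = c / 2) : Stp T 0 c d :=
  ⟨sid c, by unfold sid; omega, inc_sid c, Or.inl (by unfold sid; omega)⟩

theorem inc_tid (hT : ∀ x, T (T x) = x) {c : ℕ} (h : T c ≠ c) :
    Inc T c (tid T c) ∧ Inc T (T c) (tid T c) := by
  refine ⟨Or.inr ⟨h, rfl⟩, Or.inr ⟨?_, ?_⟩⟩
  · rw [hT]; exact fun h2 => h h2.symm
  · unfold tid; rw [hT, min_comm]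

theorem stp_T (hT : ∀ x, T (T x) = x) (c : ℕ) : Stp T 0 c (T c) := by
  by_cases h : T c = c
  · rw [h]; exact stp_pair rfl
  · exact ⟨tid T c, by unfold tid; omega, (inc_tid hT h).1, (inc_tid hT h).2⟩

theorem stp_cases (hT : ∀ x, T (T x) = x) {e c d : ℕ} (h : Stp T e c d) :
    d / 2 = c / 2 ∨ d = T c := by
  obtain ⟨f, _, h2, h3⟩ := h
  rcases h2 with h2 | ⟨h2', h2⟩
  · rcases h3 with h3 | ⟨_, h3⟩
    · left; omega
    · omega
  · rcases h3 with h3 | ⟨h3', h3⟩
    · omega
    · have e1 : min d (T d) = min c (T c) := by omega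
      have m1 := min_cases hT c
      have m2 := min_cases hT d
      rw [e1] at m2
      rcases m1 with m1 | m1 <;> rcases m2 with m2 | m2
      · left; rw [m1.trans m2.symm]
      · right; rw [m2, ← m1]
      · right; rw [m2]; conv_rhs => rw [m1]
        rw [hT]
      · left; rw [m1.trans m2.symm]

theorem linked_iff_rt (hT : ∀ x, T (T x) = x) {c d : ℕ} :
    Linked T c d ↔ ReflTransGen (Stp T 0) c d := by
  constructor
  · intro h
    induction h with
    | refl => exact ReflTransGen.refl
    | tail _ hbc ih =>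
      refine ih.tail ?_
      rcases hbc with rfl | hbc
      · exact stp_T hT _
      · exact stp_pair hbc
  · intro h
    induction h with
    | refl => exact ReflTransGen.refl
    | tail _ hbc ih =>
      refine ReflTransGen.tail ih ?_
      rcases stp_cases hT hbc with h | h
      · exact Or.inr h
      · exact Or.inl h

/-- the first passage of the edge `f` -/
theorem passage {f u d : ℕ} (h : ReflTransGen (Stp T 0) u d) :
    ReflTransGen (Stp T f) u d ∨ ∃ c, Inc T c f ∧ ReflTransGen (Stp T f) u c := by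
  induction h with
  | refl => exact Or.inl ReflTransGen.refl
  | @tail b c _ hbc ih =>
    rcases ih with ih | ih
    · obtain ⟨g, _, h2, h3⟩ := hbc
      by_cases hg : g = f
      · rw [hg] at h2
        exact Or.inr ⟨b, h2, ih⟩
      · exact Or.inl (ih.tail ⟨g, hg, h2, h3⟩)
    · exact Or.inr ih

/-- a dead end is avoided -/
theorem dead (hT : ∀ x, T (T x) = x) {c f g u v : ℕ} (hcf : Inc T c f)
    (hc : ∀ f', Inc T c f' → f' = f ∨ f' = g) (hu : c ≠ u) (hv : c ≠ v)
    (h : ReflTransGen (Stp T g) u v) : ReflTransGen (Stp T f) u v := by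
  have key : ∀ d, ReflTransGen (Stp T g) u d →
      (d ≠ c → ReflTransGen (Stp T f) u d) ∧
        (d = c → ∃ c', Inc T c' f ∧ c' ≠ c ∧ ReflTransGen (Stp T f) u c') := by
    intro d hd
    induction hd with
    | refl => exact ⟨fun _ => ReflTransGen.refl, fun h => absurd h.symm hu⟩
    | @tail d d' _ hdd ih =>
      obtain ⟨f', h1, h2, h3⟩ := hdd
      by_cases hdc : d = c
      · obtain ⟨c', h4, h5, h6⟩ := ih.2 hdc
        refine ⟨fun hne => ?_, fun _ => ⟨c', h4, h5, h6⟩⟩
        rw [hdc] at h2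
        have hf' : f' = f := (hc f' h2).resolve_right h1
        rw [hf'] at h3
        rw [inc_other hT hcf h3 h4 hne h5]
        exact h6
      · have h6 := ih.1 hdc
        refine ⟨fun hne => ?_, fun heq => ?_⟩
        · by_cases hf' : f' = f
          · rw [hf'] at h2 h3
            rw [← inc_other hT hcf h2 h3 hdc hne]
            exact h6
          · exact h6.tail ⟨f', hf', h2, h3⟩
        · rw [heq] at h3
          have hf' : f' = f := (hc f' h3).resolve_right h1
          rw [hf'] at h2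
          exact ⟨d, h2, hdc, h6⟩
  exact (key v h).1 (Ne.symm hv)

/-- the steps stay below `B` -/
theorem stp_lt (hT : ∀ x, T (T x) = x) {B : ℕ} (hB : ∀ x < B, T x < B) (h2 : 2 ∣ B) {e c d : ℕ}
    (h : Stp T e c d) (hc : c < B) : d < B := by
  rcases stp_cases hT h with h1 | h1
  · omega
  · rw [h1]; exact hB c hc

theorem rt_lt (hT : ∀ x, T (T x) = x) {B : ℕ} (hB : ∀ x < B, T x < B) (h2 : 2 ∣ B) {e c d : ℕ}
    (h : ReflTransGen (Stp T e) c d) (hc : c < B) : d < B := by
  induction h with
  | refl => exact hc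
  | tail _ hbc ih => exact stp_lt hT hB h2 hbc ih

/-- colours along walks which avoid the edge -/
theorem rt_col (hT : ∀ x, T (T x) = x) {B : ℕ} (hB : ∀ x < B, T x < B) (h2 : 2 ∣ B) {e c d : ℕ}
    {C : ℕ → Prop} (hC : Proper (Adj T B e) C) (h : ReflTransGen (Stp T e) c d) (hc : c < B) :
    C (3 * c) ↔ C (3 * d) := by
  induction h with
  | refl => exact Iff.rfl
  | @tail b d hb hbc ih =>
    have hbB := rt_lt hT hB h2 hb hc
    have hdB := stp_lt hT hB h2 hbc hbB
    obtain ⟨f, h1, h2', h3⟩ := hbc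
    have e1 := hC (3 * b) f (Or.inl ⟨b, hbB, h2', h1, rfl⟩)
    have e2 := hC (3 * d) f (Or.inl ⟨d, hdB, h3, h1, rfl⟩)
    tauto

/-- colours at the ends of a bridge between `u` and `v` -/
theorem bridge_col (hT : ∀ x, T (T x) = x) {B : ℕ} (hB : ∀ x < B, T x < B) (h2 : 2 ∣ B)
    {f u v : ℕ} {C : ℕ → Prop} (hC : Proper (Adj T B f) C) (hu : u < B) (hv : v < B)
    (h : ReflTransGen (Stp T 0) u v) (hn : ¬ ReflTransGen (Stp T f) u v) :
    ¬ (C (3 * u) ↔ C (3 * v)) := by
  obtain ⟨c, hc, huc⟩ := (passage h).resolve_left hn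
  obtain ⟨d, hd, hvd⟩ := (passage (rt_symm h)).resolve_left fun h' => hn (rt_symm h')
  have hcd : c ≠ d := by
    rintro rfl
    exact hn (huc.trans (rt_symm hvd))
  have e1 := rt_col hT hB h2 hC huc hu
  have e2 := rt_col hT hB h2 hC hvd hv
  have e3 := hC (3 * c) (3 * d) (Or.inr (Or.inr ⟨c, rt_lt hT hB h2 huc hu, d,
    rt_lt hT hB h2 hvd hv, hcd, hc, hd, rfl, rfl⟩))
  tauto

theorem even_card (s : Finset ℕ) (g : ℕ → ℕ) (h1 : ∀ a ∈ s, g a ∈ s) (h2 : ∀ a ∈ s, g (g a) = a)
    (h3 : ∀ a ∈ s, g a ≠ a) : Even s.card := by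
  have h : ∑ _x ∈ s, (1 : ZMod 2) = 0 := by
    refine Finset.sum_involution (fun a _ => g a) (fun a _ => by decide) (fun a ha _ => h3 a ha)
      (fun a ha => h1 a ha) (fun a ha => h2 a ha)
  rw [Finset.sum_const, nsmul_eq_mul, mul_one] at h
  exact (ZMod.natCast_eq_zero_iff_even).1 h

/-- the local check proves that the ends are linked -/
theorem check_linked (hT : ∀ x, T (T x) = x) {B : ℕ} (hB : ∀ x < B, T x < B) (h2 : 2 ∣ B)
    {u v : ℕ} (hu : u < B) (hTu : T u = u) (S : ℕ → Prop) (hS : S (sid u))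
    (h : ∀ c < B, c ≠ u → c ≠ v → (S (sid c) ↔ (T c ≠ c ∧ S (tid T c)))) :
    ReflTransGen (Stp T 0) u v := by
  classical
  by_contra hn
  have hK : ∀ c, ReflTransGen (Stp T 0) u c → S (sid c) := by
    intro c hc
    induction hc with
    | refl => exact hS
    | @tail b c hb hbc ih =>
      have hbB := rt_lt hT hB h2 hb hu
      rcases stp_cases hT hbc with h3 | h3
      · have : sid c = sid b := by unfold sid; rw [h3]
        rw [this]
        exact ih
      · by_cases hbf : T b = b
        · rw [h3, hbf]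
          exact ih
        · have hbu : b ≠ u := fun h4 => hbf (by rw [h4]; exact hTu)
          have hbv : b ≠ v := fun h4 => hn (h4 ▸ hb)
          have h5 := ((h b hbB hbu hbv).1 ih).2
          have hcb : T c = b := by rw [h3, hT]
          have hcf : T c ≠ c := by
            rw [hcb, h3]
            exact fun h6 => hbf h6.symm
          have hcu : c ≠ u := fun h4 => hcf (by rw [h4]; exact hTu)
          have hcv : c ≠ v := fun h4 => hn (h4 ▸ hb.tail hbc)
          have h6 : tid T c = tid T b := by unfold tid; rw [hcb, h3, min_comm]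
          refine (h c (stp_lt hT hB h2 hbc hbB) hcu hcv).2 ⟨hcf, ?_⟩
          rw [h6]
          exact h5
  have hfix : ∀ c, ReflTransGen (Stp T 0) u c → c ≠ u → T c ≠ c := by
    intro c hc hcu
    have hcv : c ≠ v := fun h4 => hn (h4 ▸ hc)
    exact ((h c (rt_lt hT hB h2 hc hu) hcu hcv).1 (hK c hc)).1
  let s : Finset ℕ := (Finset.range B).filter fun c => ReflTransGen (Stp T 0) u c
  have hmem : ∀ c, c ∈ s ↔ ReflTransGen (Stp T 0) u c := by
    intro c
    simp only [s, Finset.mem_filter, Finset.mem_range]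
    exact ⟨fun h => h.2, fun h => ⟨rt_lt hT hB h2 h hu, h⟩⟩
  have hus : u ∈ s := (hmem u).2 ReflTransGen.refl
  have e1 : Even s.card := by
    refine even_card s eps (fun a ha => ?_) (fun a _ => eps_eps a) (fun a _ => ?_)
    · rw [hmem] at ha ⊢
      exact ha.tail (stp_pair (eps_div a))
    · unfold eps; omega
  have e2 : Even (s.erase u).card := by
    refine even_card _ T (fun a ha => ?_) (fun a _ => hT a) (fun a ha => ?_)
    · rw [Finset.mem_erase] at ha ⊢
      refine ⟨fun h3 => ha.1 ?_, ?_⟩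
      · rw [← hT a, h3, hTu]
      · rw [hmem]
        exact ((hmem a).1 ha.2).tail (stp_T hT a)
    · rw [Finset.mem_erase] at ha
      exact hfix a ((hmem a).1 ha.2) ha.1
  rw [Finset.card_erase_of_mem hus] at e2
  have h0 : 0 < s.card := Finset.card_pos.2 ⟨u, hus⟩
  obtain ⟨a, ha⟩ := e1
  obtain ⟨b, hb⟩ := e2
  omega

/-- linked ends pass the check -/
theorem linked_check (hT : ∀ x, T (T x) = x) {B : ℕ} (hB : ∀ x < B, T x < B) (h2 : 2 ∣ B)
    {u v : ℕ} (hu : u < B) (hv : v < B) (huv : u ≠ v) (hTu : T u = u)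
    (C : ℕ → ℕ → Prop) (hC : ∀ f, Proper (Adj T B f) (C f))
    (h : ReflTransGen (Stp T 0) u v) :
    (¬ (C (sid u) (3 * u) ↔ C (sid u) (3 * v))) ∧
      ∀ c < B, c ≠ u → c ≠ v → ((¬ (C (sid c) (3 * u) ↔ C (sid c) (3 * v))) ↔
        (T c ≠ c ∧ ¬ (C (tid T c) (3 * u) ↔ C (tid T c) (3 * v)))) := by
  have hiff : ∀ f, (¬ (C f (3 * u) ↔ C f (3 * v))) ↔ ¬ ReflTransGen (Stp T f) u v := by
    intro f
    constructor
    · intro h3 h4
      exact h3 (rt_col hT hB h2 (hC f) h4 hu)
    · intro h3
      exact bridge_col hT hB h2 (hC f) hu hv h h3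
  refine ⟨?_, ?_⟩
  · rw [hiff]
    intro h3
    have key : ∀ d, ReflTransGen (Stp T (sid u)) u d → d = u := by
      intro d hd
      induction hd with
      | refl => rfl
      | @tail b d _ hbd ih =>
        obtain ⟨f, h4, h5, _⟩ := hbd
        rw [ih] at h5
        rcases h5 with h5 | ⟨h5, _⟩
        · exact absurd h5 h4
        · exact absurd hTu h5
    exact huv (key v h3).symm
  · intro c hcB hcu hcv
    rw [hiff, hiff]
    by_cases hTc : T c = c
    · constructor
      · intro h3
        refine absurd ?_ h3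
        refine dead hT (g := 0) (inc_sid c) (fun f' hf' => ?_) hcu hcv h
        rcases hf' with h4 | ⟨h4, _⟩
        · exact Or.inl h4
        · exact absurd hTc h4
      · rintro ⟨h3, _⟩
        exact absurd hTc h3
    · have hi := (inc_tid hT hTc).1
      constructor
      · intro h3
        refine ⟨hTc, fun h4 => h3 ?_⟩
        refine dead hT (g := tid T c) (inc_sid c) (fun f' hf' => ?_) hcu hcv h4
        rcases hf' with h5 | ⟨_, h5⟩
        · exact Or.inl h5
        · exact Or.inr h5
      · rintro ⟨_, h3⟩ h4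
        refine h3 (dead hT (g := sid c) hi (fun f' hf' => ?_) hcu hcv h4)
        rcases hf' with h5 | ⟨_, h5⟩
        · exact Or.inr h5
        · exact Or.inl h5

end

end Pool.Agent.J4H96.TC
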