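import Pool.Agent.J4H63.GZ.Conv

/-!
# Project TC (helper96): two-colourings of `Δ₀` graphs of degree at most two

THEOREM. The following are equivalent: (1) `Δ₀ = E²_*`; (2) for every `Δ₀` family of graphs of degree `≤ 2` the set of the
parameters `p` with `G_p` bipartite is `Δ₀`; (3) for every such family there is a `Δ₀` set `C` such that `C_p` is a proper
2-colouring of `G_p` whenever `G_p` is bipartite; (4) for every `Δ₀` family of disjoint unions of paths there is a `Δ₀` set
`C` such that `C_p` is a proper 2-colouring of `G_p` for all `p`.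
-/

set_option autoImplicit false

namespace Pool.Agent.J4H96.TC

open Pool.Agent.J4H63.GZ

/-- A `Δ₀` family of finite graphs of degree at most two: `E p a b` says that `a` and `b` are neighbours in the graph `G_p`, whose
vertices are smaller than `p 0`. -/
structure GraphFamily (K : ℕ) (E : (Fin (K + 1) → ℕ) → ℕ → ℕ → Prop) : Prop where
  symm : ∀ p a b, E p a b → E p b a
  ne : ∀ p a b, E p a b → a ≠ b
  lt : ∀ p a b, E p a b → a < p 0
  deg : ∀ p a b c d, E p a b → E p a c → E p a d → b = c ∨ b = d ∨ c = d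
  delta0 : Delta0 (K + 3) (fun v => E (fun i => v i.succ.succ) (v 0) (v 1))

/-- proper 2-colourings -/
def Proper (E : ℕ → ℕ → Prop) (C : ℕ → Prop) : Prop := ∀ a b, E a b → (C a ↔ ¬ C b)

/-- bipartite graphs -/
def Bipartite (E : ℕ → ℕ → Prop) : Prop := ∃ C, Proper E C

/-- every vertex is connected to a vertex with at most one neighbour: for finite graphs of degree at most two this means that
all components are paths -/
def AllPaths (E : ℕ → ℕ → Prop) : Prop :=
  ∀ a, ∃ b, Relation.ReflTransGen E a b ∧ ∀ c d, E b c → E b d → c = d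

/-- every component of the graph of the two involutions contains a fixed point of `τ` -/
def HasEnds (τ : ℕ → ℕ) : Prop := ∀ x, ∃ y, Linked τ x y ∧ τ y = y

/-- JOB LB. PROOF. Levels: for an end `r` there is at most one vertex at each distance `k` from `r` (induction on `k`: two of
them, `a ≠ b`, have the same predecessor `c`, which has a third neighbour, its own predecessor, or is `r`). So the distances of
neighbours `a ≠ b` differ by exactly one. Take for every component its least end `r`; `C a` : the distance of `a` from `r` is even. -/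
def S_LB : Prop := ∀ E : ℕ → ℕ → Prop, (∀ a b, E a b → E b a) → (∀ a b, E a b → a ≠ b) →
  (∀ a b c d, E a b → E a c → E a d → b = c ∨ b = d ∨ c = d) → AllPaths E → Bipartite E

/-- JOB ACY. PROOF. As `nice_of_link`, `delta0_of_link` in `J4H63/GZ/Link.lean` (with exact `Δ₀` instead of `NearDelta0`: `Adv` of a
`Δ₀` predicate is trivial, with no advice); they use `LinkRel` only for the family `fam h`, and `fam h p` has ends: if it is the
identity this is trivial, otherwise every flag `(t, w, s, e)` is linked to `(y - 1, w', 0, 0)` (`link_parent`, `link_eps`, `flagA`),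
then (`link_sib`, `flagA`, `link_eps`) to the flag `(y - 1, x, 1, 1)` of the last sibling `x`, which is a fixed point of `tau`. -/
def S_ACY : Prop :=
  (∀ (K : ℕ) (τ : (Fin (K + 1) → ℕ) → ℕ → ℕ), InvFamily K τ → (∀ p, HasEnds (τ p)) → Delta0 (K + 3) (LinkRel τ)) →
    ∀ (k : ℕ) (R : (Fin k → ℕ) → Prop), E2star k R → Delta0 k R

/-- JOB COL. PROOF. Half-edges of the double cover: `x = 4 a + 2 ε + i`, `ε, i < 2`; `slot a b i`: `E a b` and (`i = 0` and no neighbour of `a`
is smaller than `b`, or `i = 1` and some neighbour of `a` is smaller than `b`): at most one `b` for given `a`, `i`; exactly one `i` for an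
edge. `τ (4 a + 2 ε + i) = 4 b + 2 (1 - ε) + j` if `slot a b i` and `slot b a j`, and `τ x = x` if there is no such `b`. This is an
`InvFamily` (a new parameter `N`, with `τ = id` unless `4 * p 0 ≤ N`), so `LinkRel` is `Δ₀`. If `c` is a proper colouring then
`c a xor ε` is constant along `Linked`; so `4 a` and `4 a + 2` are not linked. `C a`: for the least `m` for which `4 m` is linked with
`4 a` or `4 a + 2`, it is linked with `4 a`. -/
def S_COL : Prop :=
  (∀ (K : ℕ) (τ : (Fin (K + 1) → ℕ) → ℕ → ℕ), InvFamily K τ → Delta0 (K + 3) (LinkRel τ)) →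
    ∀ (K : ℕ) (E : (Fin (K + 1) → ℕ) → ℕ → ℕ → Prop), GraphFamily K E →
      ∃ C : (Fin (K + 1) → ℕ) → ℕ → Prop, Delta0 (K + 2) (fun v => C (fun i => v i.succ) (v 0)) ∧
        ∀ p, Bipartite (E p) → Proper (E p) (C p)

/-- JOB CORE (helper96) -/
def S_CORE : Prop :=
  (∀ (K : ℕ) (E : (Fin (K + 1) → ℕ) → ℕ → ℕ → Prop), GraphFamily K E → (∀ p, AllPaths (E p)) →
      ∃ C : (Fin (K + 1) → ℕ) → ℕ → Prop, Delta0 (K + 2) (fun v => C (fun i => v i.succ) (v 0)) ∧
        ∀ p, Proper (E p) (C p)) →
    ∀ (K : ℕ) (τ : (Fin (K + 1) → ℕ) → ℕ → ℕ), InvFamily K τ → (∀ p, HasEnds (τ p)) → Delta0 (K + 3) (LinkRel τ)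

/-- JOB DEC (helper96) -/
def S_DEC : Prop :=
  (∀ (K : ℕ) (E : (Fin (K + 1) → ℕ) → ℕ → ℕ → Prop), GraphFamily K E →
      Delta0 (K + 1) (fun p => Bipartite (E p))) →
    ∀ (K : ℕ) (τ : (Fin (K + 1) → ℕ) → ℕ → ℕ), InvFamily K τ → Delta0 (K + 3) (LinkRel τ)

/-! ### The edges -/

/-- `c` is an end of the edge with the number `f`: the edge `{2 j, 2 j + 1}` has the number `6 j + 1`, the edge `{c, T c}` the
number `3 min(c, T c) + 2` -/
def Inc (T : ℕ → ℕ) (c f : ℕ) : Prop := f = 3 * (2 * (c / 2)) + 1 ∨ (T c ≠ c ∧ f = 3 * min c (T c) + 2)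

/-- one step which avoids the edge `e` (`e = 0`: no restriction) -/
def Stp (T : ℕ → ℕ) (e c d : ℕ) : Prop := ∃ f, f ≠ e ∧ Inc T c f ∧ Inc T d f

/-- the graph: the vertices `c < B` have the numbers `3 c`, all edges except `e` are subdivided -/
def Adj (T : ℕ → ℕ) (B e a b : ℕ) : Prop :=
  (∃ c < B, Inc T c b ∧ b ≠ e ∧ a = 3 * c) ∨ (∃ c < B, Inc T c a ∧ a ≠ e ∧ b = 3 * c) ∨
    ∃ c < B, ∃ d < B, c ≠ d ∧ Inc T c e ∧ Inc T d e ∧ a = 3 * c ∧ b = 3 * d

/-- JOB FAM. PROOF. Direct; `6 M` bounds the vertices; the family is empty unless `p 0 ≤ 2 M` and `6 M ≤ N`. The degree: an edge number has at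
most two ends, a vertex at most two edge numbers; `e ↦` the other end of `e`. -/
def S_FAM : Prop := ∀ (K : ℕ) (τ : (Fin (K + 1) → ℕ) → ℕ → ℕ), InvFamily K τ →
  GraphFamily (K + 3) (fun q a b => q 3 ≤ 2 * q 1 ∧ 6 * q 1 ≤ q 0 ∧
    Adj (τ (fun i => q i.succ.succ.succ)) (2 * q 1) (q 2) a b)

/-- JOB PTH. PROOF. Walk from a vertex (or from one end of a mid-point `a` of an edge) to a fixed point of `T` by `HasEnds`; either the walk
arrives there, or it comes to an end of `e`... every vertex `3 c` is connected in `Adj` with `3 c'` for `Linked T c c'` (over `e` there is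
the direct edge), and `3 c'` has at most one neighbour if `T c' = c'`. All within `[0, B)`: `B` is even and `T` maps `[0, B)` to itself.
Vertices `a` with no neighbours are ends. -/
def S_PTH : Prop := ∀ (T : ℕ → ℕ) (B e : ℕ), (∀ x, T (T x) = x) → (∀ x < B, T x < B) → 2 ∣ B → HasEnds T →
  AllPaths (Adj T B e)

end Pool.Agent.J4H96.TC
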